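import Pool.Agent.Zk36.CG.Final

/-! The limit of the exponential rates, uniformly in the parameter. -/

set_option autoImplicit false

namespace Pool.Agent.Zk36.UW

open Finset H906K Pool.Agent.H974R3 Filter Topology Pool.Agent.Zk36.CG

theorem partB2 : ∃ ρ : ℝ, 0 < ρ ∧ ∃ ε : ℕ → ℝ, Tendsto ε atTop (𝓝 0) ∧ ∀ n : ℕ, 1 ≤ n →
    ∀ θ : ℝ, |θ| ≤ ρ → |(2 * n + 1 : ℝ) * rate n (θ / (2 * n + 1)) - 3 * θ ^ 2 / (2 * Real.pi)| ≤
      ε n * θ ^ 2 := by
  obtain ⟨K, hK, hb⟩ := exists_gb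
  obtain ⟨K1, hK1, hgeo⟩ := value_geo
  set ρ : ℝ := 1 / (4000 * (1 + K)) with hρ
  have hρ0 : 0 < ρ := by positivity
  have hρ1 : ρ * (2000 * (1 + K)) < 1 := by
    rw [hρ]
    have : (1 / (4000 * (1 + K))) * (2000 * (1 + K)) = 1/2 := by
      have : (1 + K) ≠ 0 := by positivity
      field_simp
      norm_num
    rw [this]; norm_num
  have hρ2 : 2000 * ρ < 1 := by
    have : 0 ≤ ρ * K := by positivity
    nlinarith
  choose L hL using exists_FE
  have hex : ∀ n : ℕ, ∃ d : FD, d.N = 2 * (n + 1) + 1 ∧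
      ∀ j, PowerSeries.coeff j (lg (L (n + 1))) = (d.N : ℂ) ^ j * PowerSeries.coeff j (lg (d.E 0)) :=
    fun n => (hL (n + 1)).scale (by omega)
  choose d hd hs using hex
  have hN : Tendsto (fun n => ((d n).N : ℝ)) atTop atTop := by
    simp only [hd]
    push_cast
    have h1 : Tendsto (fun n : ℕ => (n : ℝ)) atTop atTop := tendsto_natCast_atTop_atTop
    refine tendsto_atTop_mono (fun n => ?_) h1
    have : (0:ℝ) ≤ n := Nat.cast_nonneg n
    linarith
  have hNe : ∀ n : ℕ, (2 * ((n + 1 : ℕ) : ℝ) + 1) = ((d n).N : ℝ) := by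
    intro n
    rw [hd]
    push_cast
    ring
  -- coefficients
  set a : ℕ → ℕ → ℝ := fun n j => (((d n).N : ℝ) * (sc (d n) j).re) / j with ha
  set a0 : ℕ → ℝ := fun j => (if j = 2 then 3 / Real.pi else 0 : ℝ) / j with ha0
  have hab : ∀ n j, |a n j| ≤ K1 * 2000 ^ j := by
    intro n j
    have h1 := hgeo (d n) j
    have h2 : |(sc (d n) j).re| ≤ ‖PowerSeries.coeff j (lg ((d n).E 0))‖ := by
      refine (Complex.abs_re_le_norm _).trans ?_
      unfold sc
      rw [norm_mul, norm_pow, norm_inv, Complex.norm_I, inv_one, one_pow, one_mul]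
    have hN0 : (0:ℝ) ≤ (d n).N := Nat.cast_nonneg _
    simp only [ha]
    rw [abs_div, abs_mul, abs_of_nonneg hN0, abs_of_nonneg (Nat.cast_nonneg j : (0:ℝ) ≤ j)]
    rcases Nat.eq_zero_or_pos j with rfl | hj
    · simp
      exact hK1.le
    · have hj' : (1:ℝ) ≤ j := by exact_mod_cast hj
      calc ((d n).N : ℝ) * |(sc (d n) j).re| / j
          ≤ ((d n).N : ℝ) * |(sc (d n) j).re| / 1 := by gcongr
        _ ≤ ((d n).N : ℝ) * ‖PowerSeries.coeff j (lg ((d n).E 0))‖ := by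
            rw [div_one]; gcongr
        _ ≤ K1 * 2000 ^ j := h1
  have hlim : ∀ j, Tendsto (fun n => a n j) atTop (𝓝 (a0 j)) := fun j => (sc_lim hN j).div_const _
  have ha0b : ∀ j, |a0 j| ≤ K1 * 2000 ^ j := fun j =>
    le_of_tendsto (hlim j).abs (Eventually.of_forall fun n => hab n j)
  have key : ∀ (n : ℕ) (θ : ℝ), |θ| ≤ ρ →
      (2 * ((n + 1 : ℕ) : ℝ) + 1) * rate (n + 1) (θ / (2 * ((n + 1 : ℕ) : ℝ) + 1)) =
      ∑' j : ℕ, a n j * θ ^ j := by
    intro n θ hθ
    have hpos : (0:ℝ) < 2 * ((n + 1 : ℕ) : ℝ) + 1 := by positivity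
    have hr : |θ / (2 * ((n + 1 : ℕ) : ℝ) + 1)| * rad K (n + 1) < 1 := by
      rw [abs_div, abs_of_pos hpos]
      unfold rad
      have e : |θ| / (2 * ((n + 1 : ℕ) : ℝ) + 1) * (2000 * (2 * ((n + 1 : ℕ) : ℝ) + 1) * (1 + K)) =
          |θ| * (2000 * (1 + K)) := by
        field_simp
      rw [e]
      refine lt_of_le_of_lt ?_ hρ1
      exact mul_le_mul_of_nonneg_right hθ (by positivity)
    rw [(hL (n + 1)).rate_eq hK (hb (n + 1) _ (by omega) (hL (n + 1))) hr]
    unfold psi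
    rw [← tsum_mul_left]
    refine tsum_congr fun j => ?_
    rw [sc_cf (hd n) (hs n), ← Complex.ofReal_pow, Complex.re_ofReal_mul, hNe, div_pow]
    have hN0 : ((d n).N : ℝ) ≠ 0 := by rw [← hNe]; exact hpos.ne'
    simp only [ha]
    field_simp
  have hlim0 : ∀ θ : ℝ, ∑' j : ℕ, a0 j * θ ^ j = 3 * θ ^ 2 / (2 * Real.pi) := by
    intro θ
    rw [tsum_eq_single 2]
    · simp only [ha0]
      rw [if_pos trivial]
      have := Real.pi_ne_zero
      push_cast
      field_simp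
    · intro j hj
      simp only [ha0]
      rw [if_neg hj, zero_div, zero_mul]
  have hsum : ∀ θ : ℝ, |θ| ≤ ρ → Summable (fun j : ℕ => K1 * (2000 * |θ|) ^ j) := by
    intro θ hθ
    apply (summable_geometric_of_lt_one (by positivity) _).mul_left K1
    nlinarith
  have hs1 : ∀ (b : ℕ → ℝ), (∀ j, |b j| ≤ K1 * 2000 ^ j) → ∀ θ : ℝ, |θ| ≤ ρ →
      Summable (fun j => |b j| * |θ| ^ j) := by
    intro b hb' θ hθ
    refine Summable.of_nonneg_of_le (fun j => by positivity) (fun j => ?_) (hsum θ hθ)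
    rw [mul_pow, ← mul_assoc]
    exact mul_le_mul_of_nonneg_right (hb' j) (by positivity)
  -- the error
  set e : ℕ → ℝ := fun n => (∑' j : ℕ, |a n j - a0 j| * ρ ^ j) / ρ ^ 2 with he
  have hdb : ∀ n j, |a n j - a0 j| ≤ 2 * (K1 * 2000 ^ j) := fun n j => by
    have := abs_sub (a n j) (a0 j)
    linarith [hab n j, ha0b j]
  have hds : ∀ n, Summable (fun j : ℕ => |a n j - a0 j| * ρ ^ j) := by
    intro n
    refine Summable.of_nonneg_of_le (fun j => by positivity) (fun j => ?_)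
      ((hsum ρ (by rw [abs_of_pos hρ0])).mul_left 2)
    rw [abs_of_pos hρ0, mul_pow]
    calc |a n j - a0 j| * ρ ^ j ≤ 2 * (K1 * 2000 ^ j) * ρ ^ j :=
          mul_le_mul_of_nonneg_right (hdb n j) (by positivity)
      _ = _ := by ring
  have helim : Tendsto e atTop (𝓝 0) := by
    have h1 : Tendsto (fun n => ∑' j : ℕ, |a n j - a0 j| * ρ ^ j) atTop (𝓝 (∑' _ : ℕ, (0:ℝ))) := by
      refine tendsto_tsum_of_dominated_convergence
        (bound := fun j : ℕ => 2 * (K1 * (2000 * |ρ|) ^ j))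
        ((hsum ρ (by rw [abs_of_pos hρ0])).mul_left 2) (fun j => ?_) ?_
      · have h2 : Tendsto (fun n => |a n j - a0 j| * ρ ^ j) atTop (𝓝 (|a0 j - a0 j| * ρ ^ j)) :=
          (((hlim j).sub_const _).abs).mul_const _
        simpa using h2
      · filter_upwards with n j
        rw [Real.norm_eq_abs, abs_mul, abs_abs, abs_pow, abs_of_pos hρ0, mul_pow]
        calc |a n j - a0 j| * ρ ^ j ≤ 2 * (K1 * 2000 ^ j) * ρ ^ j :=
              mul_le_mul_of_nonneg_right (hdb n j) (by positivity)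
          _ = _ := by ring
    rw [tsum_zero] at h1
    have h3 := h1.div_const (ρ ^ 2)
    rw [zero_div] at h3
    exact h3
  refine ⟨ρ, hρ0, fun n => e (n - 1), ?_, ?_⟩
  · exact helim.comp (tendsto_sub_atTop_nat 1)
  · intro n hn θ hθ
    obtain ⟨m, rfl⟩ : ∃ m, n = m + 1 := ⟨n - 1, by omega⟩
    simp only [Nat.add_sub_cancel]
    rw [key m θ hθ, ← hlim0 θ]
    have hsa : Summable (fun j => a m j * θ ^ j) := by
      apply Summable.of_norm
      refine (hs1 (a m) (hab m) θ hθ).congr fun j => ?_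
      rw [Real.norm_eq_abs, abs_mul, abs_pow]
    have hsa0 : Summable (fun j => a0 j * θ ^ j) := by
      apply Summable.of_norm
      refine (hs1 a0 ha0b θ hθ).congr fun j => ?_
      rw [Real.norm_eq_abs, abs_mul, abs_pow]
    rw [← hsa.tsum_sub hsa0]
    have hz : ∀ j, j < 2 → a m j - a0 j = 0 := by
      intro j hj
      simp only [ha, ha0]
      interval_cases j
      · simp
      · rw [sc_one]; simp
    have hterm : ∀ j, |a m j * θ ^ j - a0 j * θ ^ j| ≤ |a m j - a0 j| * ρ ^ j * (θ ^ 2 / ρ ^ 2) := by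
      intro j
      rcases Nat.lt_or_ge j 2 with hj | hj
      · rw [← sub_mul, hz j hj]
        simp
      · rw [← sub_mul, abs_mul, abs_pow]
        obtain ⟨i, rfl⟩ := Nat.exists_eq_add_of_le hj
        have h1 : |θ| ^ (2 + i) ≤ ρ ^ (2 + i) * (θ ^ 2 / ρ ^ 2) := by
          rw [pow_add, pow_add, sq_abs]
          have h2 : |θ| ^ i ≤ ρ ^ i := pow_le_pow_left₀ (abs_nonneg _) hθ i
          calc θ ^ 2 * |θ| ^ i ≤ θ ^ 2 * ρ ^ i := mul_le_mul_of_nonneg_left h2 (sq_nonneg _)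
            _ = ρ ^ 2 * ρ ^ i * (θ ^ 2 / ρ ^ 2) := by field_simp
        calc |a m (2 + i) - a0 (2 + i)| * |θ| ^ (2 + i)
            ≤ |a m (2 + i) - a0 (2 + i)| * (ρ ^ (2 + i) * (θ ^ 2 / ρ ^ 2)) :=
              mul_le_mul_of_nonneg_left h1 (abs_nonneg _)
          _ = _ := by ring
    have hsd : Summable (fun j => |a m j * θ ^ j - a0 j * θ ^ j|) :=
      Summable.of_nonneg_of_le (fun j => abs_nonneg _) hterm ((hds m).mul_right _)
    calc |∑' j, (a m j * θ ^ j - a0 j * θ ^ j)| ≤ ∑' j, |a m j * θ ^ j - a0 j * θ ^ j| := by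
          have := norm_tsum_le_tsum_norm (f := fun j => a m j * θ ^ j - a0 j * θ ^ j)
            (by simpa [Real.norm_eq_abs] using hsd)
          simpa [Real.norm_eq_abs] using this
      _ ≤ ∑' j, |a m j - a0 j| * ρ ^ j * (θ ^ 2 / ρ ^ 2) :=
          hsd.tsum_le_tsum hterm ((hds m).mul_right _)
      _ = _ := by rw [tsum_mul_right]; simp only [he]; ring

end Pool.Agent.Zk36.UW
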