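import Pool.Agent.Zk36.UW.Cyl
import Pool.Agent.Zk36.UW.PB

/-! The exponential moments of the winding angle, uniformly in the circumference and the height. -/

set_option autoImplicit false

namespace Pool.Agent.Zk36.UW

open Finset H906K Filter Topology Pool.Agent.Zk36.CG

/-- almost additive sequences -/
theorem almost_add {a : ℕ → ℝ} {C l : ℝ} (h : ∀ M M', |a (M + M') - a M - a M'| ≤ C)
    (hl : Tendsto (fun M : ℕ => a M / M) atTop (𝓝 l)) (M : ℕ) : |a M - M * l| ≤ C := by
  have hC : 0 ≤ C := (abs_nonneg _).trans (h 0 0)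
  rcases Nat.eq_zero_or_pos M with rfl | hM
  · have := h 0 0
    rw [add_zero, sub_self, zero_sub, abs_neg] at this
    simpa using this
  · have h1 : ∀ j : ℕ, |a (j * M) - j * a M| ≤ (j + 1) * C := by
      intro j
      induction j with
      | zero =>
        have := h 0 0
        rw [add_zero, sub_self, zero_sub, abs_neg] at this
        simpa using this
      | succ j ih =>
        have h2 := h (j * M) M
        rw [show (j+1) * M = j * M + M by ring]
        push_cast
        have e : a (j * M + M) - ((j:ℝ) + 1) * a M =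
            (a (j * M + M) - a (j * M) - a M) + (a (j * M) - j * a M) := by ring
        rw [e]
        refine (abs_add_le _ _).trans ?_
        linarith
    have hM' : (0:ℝ) < M := by exact_mod_cast hM
    have h2 : Tendsto (fun j : ℕ => |a (j * M) / ((j * M : ℕ) : ℝ) - a M / M|) atTop
        (𝓝 |l - a M / M|) := by
      have h3 : Tendsto (fun j : ℕ => j * M) atTop atTop :=
        tendsto_id.atTop_mul_const' hM
      exact ((hl.comp h3).sub_const _).abs
    have h3 : Tendsto (fun j : ℕ => (((j:ℝ) + 1) / j) * (C / M)) atTop (𝓝 (1 * (C / M))) := by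
      apply Tendsto.mul_const
      have h4 : Tendsto (fun j : ℕ => 1 + 1 / (j:ℝ)) atTop (𝓝 (1 + 0)) :=
        tendsto_const_nhds.add tendsto_one_div_atTop_nhds_zero_nat
      rw [add_zero] at h4
      refine h4.congr' ?_
      filter_upwards [eventually_gt_atTop 0] with j hj
      have : (j:ℝ) ≠ 0 := by exact_mod_cast hj.ne'
      field_simp
    rw [one_mul] at h3
    have h4 : |l - a M / M| ≤ C / M := by
      refine le_of_tendsto_of_tendsto h2 h3 ?_
      filter_upwards [eventually_gt_atTop 0] with j hj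
      have hj' : (0:ℝ) < j := by exact_mod_cast hj
      have e : a (j * M) / ((j * M : ℕ) : ℝ) - a M / M = (a (j * M) - j * a M) / (j * M) := by
        push_cast; field_simp
      rw [e, abs_div, abs_of_pos (by positivity : 0 < (j:ℝ) * M), div_le_iff₀ (by positivity)]
      refine (h1 j).trans (le_of_eq ?_)
      field_simp
    have e : a M - M * l = -(M * (l - a M / M)) := by field_simp; ring
    rw [e, abs_neg, abs_mul, abs_of_pos hM']
    calc (M:ℝ) * |l - a M / M| ≤ M * (C / M) := mul_le_mul_of_nonneg_left h4 hM'.le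
      _ = C := by field_simp

theorem lmg_ZZ (n M : ℕ) (hn : 1 ≤ n) (t : ℝ) :
    lmg n M t = Real.log (ZZ (XL n) (2 * Real.pi * t) M) := by
  unfold lmg ZZ
  rw [Av_Ex]
  congr 2
  funext c
  rw [XL_ofFn n M c hn]
  unfold Wd
  congr 1
  ring

/-- **exponential moments, uniformly** -/
theorem uniform_laplace : ∃ t0 : ℝ, 0 < t0 ∧ ∃ K : ℝ, 0 ≤ K ∧ ∃ ε : ℕ → ℝ,
    Tendsto ε atTop (𝓝 0) ∧ (∀ n, 0 ≤ ε n) ∧ ∀ n : ℕ, 1 ≤ n → ∀ (M : ℕ) (t : ℝ), |t| ≤ t0 →
      |lmg n M t - 3 * t ^ 2 * ht n M| ≤ K * |t| + ε n * t ^ 2 * ht n M := by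
  obtain ⟨c0, θ, B, hc0, hc1, hθ, hB, hH⟩ := hyp
  obtain ⟨t1, ht1, K, hK, hq⟩ := quasi c0 θ B hc0 hc1 hθ hB
  obtain ⟨ρ, hρ, e, he, hr⟩ := partB2
  have hπ := Real.pi_pos
  refine ⟨min (t1 / (2 * Real.pi)) (ρ / (2 * Real.pi)), by positivity, K * (2 * Real.pi),
    by positivity, fun n => 2 * Real.pi * |e n|, ?_, fun n => by positivity, ?_⟩
  · have := he.abs.const_mul (2 * Real.pi)
    simpa using this
  · intro n hn M t ht
    have hta : 2 * Real.pi * |t| ≤ t1 := by
      have := ht.trans (min_le_left _ _)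
      rw [le_div_iff₀ (by positivity)] at this
      linarith
    have htb : 2 * Real.pi * |t| ≤ ρ := by
      have := ht.trans (min_le_right _ _)
      rw [le_div_iff₀ (by positivity)] at this
      linarith
    have habs : |2 * Real.pi * t| = 2 * Real.pi * |t| := by
      rw [abs_mul, abs_of_pos (by positivity : 0 < 2 * Real.pi)]
    have h1 : ∀ M M', |lmg n (M + M') t - lmg n M t - lmg n M' t| ≤ K * (2 * Real.pi) * |t| := by
      intro M M'
      have := hq (Row n) (2 * n + 1) (gd n) (XL n) (by omega) (hH n hn) (2 * Real.pi * t)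
        (by rw [habs]; exact hta) M M'
      rw [habs] at this
      rw [lmg_ZZ n _ hn, lmg_ZZ n _ hn, lmg_ZZ n _ hn]
      linarith
    set r := (2 * n + 1) / (2 * Real.pi) * rate n (2 * Real.pi * t / (2 * n + 1)) with hrd
    have hN : (0:ℝ) < 2 * n + 1 := by positivity
    have h2 : Tendsto (fun M : ℕ => lmg n M t / M) atTop (𝓝 (r * (2 * Real.pi / (2 * n + 1)))) := by
      refine ((lmg_lim n t).mul_const (2 * Real.pi / (2 * n + 1))).congr' ?_
      filter_upwards [eventually_gt_atTop 0] with M hM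
      have hM' : (M:ℝ) ≠ 0 := by exact_mod_cast hM.ne'
      unfold CG.ht
      field_simp
    have h3 := almost_add h1 h2 M
    have h4 : (M:ℝ) * (r * (2 * Real.pi / (2 * n + 1))) = r * CG.ht n M := by
      unfold CG.ht; ring
    rw [h4] at h3
    have h5 : |r - 3 * t ^ 2| ≤ 2 * Real.pi * |e n| * t ^ 2 := by
      have h6 := hr n hn (2 * Real.pi * t) (by rw [habs]; exact htb)
      have e1 : r - 3 * t ^ 2 = ((2 * n + 1 : ℝ) * rate n (2 * Real.pi * t / (2 * n + 1)) -
          3 * (2 * Real.pi * t) ^ 2 / (2 * Real.pi)) / (2 * Real.pi) := by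
        rw [hrd]; field_simp
      rw [e1, abs_div, abs_of_pos (by positivity : 0 < 2 * Real.pi), div_le_iff₀ (by positivity)]
      refine h6.trans ?_
      have h7 : e n ≤ |e n| := le_abs_self _
      calc e n * (2 * Real.pi * t) ^ 2 ≤ |e n| * (2 * Real.pi * t) ^ 2 :=
            mul_le_mul_of_nonneg_right h7 (sq_nonneg _)
        _ = _ := by ring
    have hh : 0 ≤ CG.ht n M := by unfold CG.ht; positivity
    have e2 : lmg n M t - 3 * t ^ 2 * CG.ht n M =
        (lmg n M t - r * CG.ht n M) + (r - 3 * t ^ 2) * CG.ht n M := by ring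
    rw [e2]
    refine (abs_add_le _ _).trans (add_le_add h3 ?_)
    rw [abs_mul, abs_of_nonneg hh]
    exact mul_le_mul_of_nonneg_right h5 hh

end Pool.Agent.Zk36.UW
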