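import Pool.Agent.Zk36.UW.Ind

/-! The partition function is multiplicative up to constants. -/

set_option autoImplicit false
set_option linter.unusedSectionVars false

namespace Pool.Agent.Zk36.UW

open Finset

variable {β : Type} [Fintype β] [Nonempty β]

variable {N : ℕ} {gi X : List β → ℝ} {c0 θ B : ℝ}

/-- reversed functional -/
def rv (F : List β → ℝ) : List β → ℝ := fun w => F w.reverse

theorem Hyp.rev (H : Hyp N gi X c0 θ B) : Hyp N (rv gi) (rv X) c0 θ B where
  gi01 g := H.gi01 _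
  split u g v hg h1 := by
    have h := H.split v.reverse g.reverse u.reverse (by simpa using hg) h1
    unfold rv
    simp only [List.reverse_append, List.append_assoc]
    rw [h]; ring
  pos := by
    unfold rv
    rw [Av_reverse]; exact H.pos
  mom L k hk hL := by
    unfold rv
    have h := Av_reverse L (fun w => Real.exp (θ * |X w|))
    rw [h]
    exact H.mom L k hk hL

/-- the partition function -/
noncomputable def ZZ (X : List β → ℝ) (t : ℝ) (M : ℕ) : ℝ := Av M (fun w => Real.exp (t * X w))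

theorem YY_rev (H : Hyp N gi X c0 θ B) (t : ℝ) (r' l : ℕ) (d g w : List β) (hg : g.length = N)
    (h1 : rv gi g = 1) : YY N X t r' l (d ++ (g ++ w)).reverse =
      Real.exp (-(t * rv X g)) * YY N X t r' l (g.reverse ++ d.reverse) *
        Real.exp (t * rv X (g ++ w)) := by
  unfold YY
  rw [mul_assoc, ← Av_mul_right, ← Av_mul]
  refine Av_congr fun v _ => ?_
  rw [← Real.exp_add, ← Real.exp_add]
  congr 1
  have h := H.split w.reverse g.reverse (d.reverse ++ v) (by simpa using hg) h1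
  unfold rv
  simp only [List.reverse_append, List.append_assoc]
  rw [h]
  ring

/-- the outer kernel -/
noncomputable def kou (N : ℕ) (gi X : List β → ℝ) (t : ℝ) (r' l s : ℕ) (g : List β) : ℝ :=
  Av (s*N) (fun d => bi N (rv gi) s d *
    (Real.exp (-(t * rv X g)) * YY N X t r' l (g.reverse ++ d.reverse)))

noncomputable def lou (N : ℕ) (gi X : List β → ℝ) (t : ℝ) (r r' k l : ℕ) : ℝ :=
  Av (k*N+r) (fun w => bi N (rv gi) k w * YY N X t r' l w.reverse)

theorem outer (H : Hyp N gi X c0 θ B) (t : ℝ) (r r' k l : ℕ) :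
    ZZ X t ((k*N+r) + (l*N+r')) = ∑ s ∈ range k, Av N (fun g => rv gi g *
      (kou N gi X t r' l s g * YY N (rv X) t r (k-1-s) g)) + lou N gi X t r r' k l := by
  have h0 : ZZ X t ((k*N+r) + (l*N+r')) = Av (k*N+r) (fun u => YY N X t r' l u.reverse) := by
    unfold ZZ
    rw [Av_append, Av_reverse]
    rfl
  rw [h0, dec N (rv gi) r k]
  unfold lou
  congr 1
  refine Finset.sum_congr rfl fun s _ => ?_
  have h1 : Av (s*N) (fun d => bi N (rv gi) s d * Av N (fun g => rv gi g *
      Av ((k-1-s)*N+r) (fun w => YY N X t r' l (d ++ (g ++ w)).reverse))) =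
      Av (s*N) (fun d => Av N (fun g => rv gi g * (bi N (rv gi) s d *
        (Real.exp (-(t * rv X g)) * YY N X t r' l (g.reverse ++ d.reverse)) *
          YY N (rv X) t r (k-1-s) g))) := by
    refine Av_congr fun d _ => ?_
    rw [← Av_mul]
    refine Av_congr fun g hg => ?_
    rcases H.rev.gi01 g with hg0 | hg1
    · rw [hg0]; ring
    · have h2 : Av ((k-1-s)*N+r) (fun w => YY N X t r' l (d ++ (g ++ w)).reverse) =
          Real.exp (-(t * rv X g)) * YY N X t r' l (g.reverse ++ d.reverse) *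
            YY N (rv X) t r (k-1-s) g := by
        unfold YY
        rw [← Av_mul]
        exact Av_congr fun w _ => YY_rev H t r' l d g w hg hg1
      rw [h2]; ring
  rw [h1, Av_comm]
  refine Av_congr fun g _ => ?_
  rw [Av_mul]
  congr 1
  unfold kou
  rw [← Av_mul_right]

theorem pav (H : Hyp N gi X c0 θ B) : Av N (rv gi) = Av N gi := Av_reverse N gi

theorem aB (H : Hyp N gi X c0 θ B) {σ ρ ε t : ℝ} (P : Par c0 θ B σ ρ ε t) (s : ℕ) :
    (1 - Av N gi)^s * B^s ≤ (ρ^s)^2 := by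
  rw [← mul_pow, ← pow_mul, mul_comm s 2, pow_mul]
  have hB0 : 0 < B := by linarith [P.hB]
  apply pow_le_pow_left₀ (mul_nonneg (by linarith [H.p1]) hB0.le)
  refine le_trans ?_ P.hρ
  apply mul_le_mul_of_nonneg_right _ hB0.le
  linarith [H.pos]

theorem YY_close (H : Hyp N gi X c0 θ B) {σ ρ ε t : ℝ} (P : Par c0 θ B σ ρ ε t) {r' : ℕ}
    (hr' : r' ≤ N) (l : ℕ) (c : List β) (z : ℝ) :
    (Real.exp (-(t * z)) * YY N X t r' l c - MM N gi X t r' l)^2 ≤
      MM N gi X t r' l ^ 2 * RR N gi X t r' σ ρ l c z := by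
  obtain ⟨a1, -, a3, a4, -⟩ := main_ind H P hr' l
  exact ptw_sq H t r' l P.hσ P.hρ0 P.hσρ a1 a3 a4 c z

theorem kou_close (H : Hyp N gi X c0 θ B) {σ ρ ε t : ℝ} (P : Par c0 θ B σ ρ ε t) {r' : ℕ}
    (hr' : r' ≤ N) (l s : ℕ) :
    √(Av N (fun g => rv gi g * (kou N gi X t r' l s g -
      (1 - Av N gi)^s * MM N gi X t r' l)^2)) ≤ MM N gi X t r' l * (ρ^s * ε) := by
  obtain ⟨a1, -, -, -, -⟩ := main_ind H P hr' l
  have hp : 0 ≤ (1 - Av N gi)^s := pow_nonneg (by linarith [H.p1]) s
  have hbi : Av (s*N) (bi N (rv gi) s) = (1 - Av N gi)^s := by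
    rw [← pav H]; exact Av_bi' H.rev s
  rw [← Real.sqrt_sq (mul_nonneg a1.le (mul_nonneg (pow_nonneg P.hρ0.le s) P.hε0))]
  apply Real.sqrt_le_sqrt
  have h1 : Av N (fun g => rv gi g * (kou N gi X t r' l s g -
      (1 - Av N gi)^s * MM N gi X t r' l)^2) ≤ (1 - Av N gi)^s * MM N gi X t r' l ^ 2 *
      Av N (fun g => Av (s*N) (fun d => RR N gi X t r' σ ρ l (g.reverse ++ d.reverse)
        (X g.reverse))) := by
    rw [← Av_mul]
    refine Av_mono fun g _ => ?_
    have h2 : kou N gi X t r' l s g - (1 - Av N gi)^s * MM N gi X t r' l =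
        Av (s*N) (fun d => bi N (rv gi) s d * (Real.exp (-(t * rv X g)) *
          YY N X t r' l (g.reverse ++ d.reverse) - MM N gi X t r' l)) := by
      unfold kou
      rw [← hbi, ← Av_mul_right, ← Av_sub]
      exact Av_congr fun d _ => by ring
    have h3 := Av_cs (s*N) (bi N (rv gi) s) (fun d => Real.exp (-(t * rv X g)) *
          YY N X t r' l (g.reverse ++ d.reverse) - MM N gi X t r' l)
    rw [← h2] at h3
    have h4 : Av (s*N) (fun d => bi N (rv gi) s d ^ 2) = (1 - Av N gi)^s := by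
      rw [← hbi]
      exact Av_congr fun d _ => bi_sq H.rev.gi01 s d
    rw [h4] at h3
    calc rv gi g * (kou N gi X t r' l s g - (1 - Av N gi)^s * MM N gi X t r' l)^2
        ≤ 1 * (kou N gi X t r' l s g - (1 - Av N gi)^s * MM N gi X t r' l)^2 :=
          mul_le_mul_of_nonneg_right (H.rev.gi1 g) (sq_nonneg _)
      _ ≤ (1 - Av N gi)^s * Av (s*N) (fun d => (Real.exp (-(t * rv X g)) *
          YY N X t r' l (g.reverse ++ d.reverse) - MM N gi X t r' l)^2) := by
          rw [one_mul]; exact h3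
      _ ≤ (1 - Av N gi)^s * Av (s*N) (fun d => MM N gi X t r' l ^ 2 *
          RR N gi X t r' σ ρ l (g.reverse ++ d.reverse) (X g.reverse)) := by
          apply mul_le_mul_of_nonneg_left _ hp
          exact Av_mono fun d _ => YY_close H P hr' l _ _
      _ = _ := by rw [Av_mul]; ring
  have h5 : Av N (fun g => Av (s*N) (fun d => RR N gi X t r' σ ρ l (g.reverse ++ d.reverse)
        (X g.reverse))) = Av (N + s*N) (fun c => RR N gi X t r' σ ρ l c (X (c.take N))) := by
    rw [Av_append]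
    have e1 : ∀ g : List β, Av (s*N) (fun d => RR N gi X t r' σ ρ l (g.reverse ++ d.reverse)
        (X g.reverse)) = Av (s*N) (fun d => RR N gi X t r' σ ρ l (g.reverse ++ d)
        (X g.reverse)) := fun g =>
      Av_reverse (s*N) (fun d => RR N gi X t r' σ ρ l (g.reverse ++ d) (X g.reverse))
    simp only [e1]
    rw [Av_reverse N (fun g => Av (s*N) (fun d => RR N gi X t r' σ ρ l (g ++ d) (X g)))]
    refine Av_congr fun g hg => Av_congr fun d _ => ?_
    rw [List.take_left' hg]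
  have h6 : Av (N + s*N) (fun c : List β => Real.exp (θ * |X (c.take N)|)) ≤ B := by
    rw [Av_append]
    have e1 : Av N (fun g => Av (s*N) (fun d => Real.exp (θ * |X ((g ++ d).take N)|))) =
        Av N (fun g => Real.exp (θ * |X g|)) := by
      refine Av_congr fun g hg => ?_
      rw [← Av_const (β := β) (s*N) (Real.exp (θ * |X g|))]
      refine Av_congr fun d _ => ?_
      rw [List.take_left' hg]
    rw [e1]
    have := H.mom N 1 le_rfl (by omega)
    rwa [pow_one] at this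
  have h7 := RR_avg H P.hθ P.hB P.hσ P.hρ0 P.hσρ P.hρ P.ht hr' l (N + s*N) (s+1)
    (by rw [add_mul, one_mul, add_comm]) (fun c => X (c.take N)) h6
  refine h1.trans ?_
  rw [h5]
  have hε := P.hε
  calc (1 - Av N gi)^s * MM N gi X t r' l ^ 2 *
        Av (N + s*N) (fun c => RR N gi X t r' σ ρ l c (X (c.take N)))
      ≤ (1 - Av N gi)^s * MM N gi X t r' l ^ 2 *
        ((2 * σ / (1 - σ * ρ))^2 * (216 * (t/θ)^2 * B^(s+1+1))) :=
        mul_le_mul_of_nonneg_left h7 (mul_nonneg hp (sq_nonneg _))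
    _ = MM N gi X t r' l ^ 2 * (((1 - Av N gi)^s * B^s) *
        ((2 * σ / (1 - σ * ρ))^2 * (216 * (t/θ)^2 * B^2))) := by
        rw [show s + 1 + 1 = s + 2 by ring, pow_add B s 2]; ring
    _ ≤ MM N gi X t r' l ^ 2 * ((ρ^s)^2 * ε^2) := by
        apply mul_le_mul_of_nonneg_left _ (sq_nonneg _)
        exact mul_le_mul (aB H P s) hε (by positivity) (by positivity)
    _ = _ := by ring

theorem lou_close (H : Hyp N gi X c0 θ B) {σ ρ ε t : ℝ} (P : Par c0 θ B σ ρ ε t) {r r' : ℕ}
    (hr : r ≤ N) (hr' : r' ≤ N) (k l : ℕ) :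
    |lou N gi X t r r' k l - (1 - Av N gi)^k * MM N gi X t r' l| ≤
      MM N gi X t r' l * (ρ^k * ε) := by
  obtain ⟨a1, -, -, -, -⟩ := main_ind H P hr' l
  have hp : 0 ≤ (1 - Av N gi)^k := pow_nonneg (by linarith [H.p1]) k
  have hbi : Av (k*N+r) (bi N (rv gi) k) = (1 - Av N gi)^k := by
    rw [← pav H]; exact Av_bi N (rv gi) r k
  rw [← Real.sqrt_sq (mul_nonneg a1.le (mul_nonneg (pow_nonneg P.hρ0.le k) P.hε0)),
    ← Real.sqrt_sq_eq_abs]
  apply Real.sqrt_le_sqrt
  have h2 : lou N gi X t r r' k l - (1 - Av N gi)^k * MM N gi X t r' l =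
      Av (k*N+r) (fun w => bi N (rv gi) k w * (YY N X t r' l w.reverse - MM N gi X t r' l)) := by
    unfold lou
    rw [← hbi, ← Av_mul_right, ← Av_sub]
    exact Av_congr fun d _ => by ring
  have h3 := Av_cs (k*N+r) (bi N (rv gi) k) (fun w => YY N X t r' l w.reverse - MM N gi X t r' l)
  rw [← h2] at h3
  have h4 : Av (k*N+r) (fun d => bi N (rv gi) k d ^ 2) = (1 - Av N gi)^k := by
    rw [← hbi]
    exact Av_congr fun d _ => bi_sq H.rev.gi01 k d
  rw [h4] at h3
  have h5 : Av (k*N+r) (fun w => (YY N X t r' l w.reverse - MM N gi X t r' l)^2) ≤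
      MM N gi X t r' l ^ 2 * Av (k*N+r) (fun w => RR N gi X t r' σ ρ l w ((fun _ => 0) w)) := by
    rw [← Av_mul, Av_reverse (k*N+r) (fun w => (YY N X t r' l w - MM N gi X t r' l)^2)]
    refine Av_mono fun w _ => ?_
    have := YY_close H P hr' l w 0
    rwa [mul_zero, neg_zero, Real.exp_zero, one_mul] at this
  have h7 := RR_avg H P.hθ P.hB P.hσ P.hρ0 P.hσρ P.hρ P.ht hr' l (k*N+r) (k+1)
    (by rw [add_mul, one_mul]; omega) (fun _ => 0)
    (by simp only [abs_zero, mul_zero, Real.exp_zero]; rw [Av_const]; exact P.hB)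
  have hε := P.hε
  calc _ ≤ _ := h3
    _ ≤ (1 - Av N gi)^k * (MM N gi X t r' l ^ 2 *
        ((2 * σ / (1 - σ * ρ))^2 * (216 * (t/θ)^2 * B^(k+1+1)))) := by
        apply mul_le_mul_of_nonneg_left _ hp
        exact h5.trans (mul_le_mul_of_nonneg_left h7 (sq_nonneg _))
    _ = MM N gi X t r' l ^ 2 * (((1 - Av N gi)^k * B^k) *
        ((2 * σ / (1 - σ * ρ))^2 * (216 * (t/θ)^2 * B^2))) := by
        rw [show k + 1 + 1 = k + 2 by ring, pow_add B k 2]; ring
    _ ≤ MM N gi X t r' l ^ 2 * ((ρ^k)^2 * ε^2) := by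
        apply mul_le_mul_of_nonneg_left _ (sq_nonneg _)
        exact mul_le_mul (aB H P k) hε (by positivity) (by positivity)
    _ = _ := by ring

/-- **the partition function splits up to a factor close to one** -/
theorem two_sided (H : Hyp N gi X c0 θ B) {σ ρ ε t : ℝ} (P : Par c0 θ B σ ρ ε t) {r r' : ℕ}
    (hr : r ≤ N) (hr' : r' ≤ N) (k l : ℕ) :
    |ZZ X t ((k*N+r) + (l*N+r')) - MM N (rv gi) (rv X) t r k * MM N gi X t r' l| ≤
      ε * (2 * σ / (1 - σ * ρ)) * (MM N (rv gi) (rv X) t r k * MM N gi X t r' l) := by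
  obtain ⟨a1, -, -, -, -⟩ := main_ind H P hr' l
  obtain ⟨b1, -, b3, b4, -⟩ := main_ind H.rev P hr k
  have hσ0 : 0 < σ := by linarith [P.hσ]
  have hρ0 := P.hρ0
  have hε0 := P.hε0
  set A := MM N gi X t r' l with hA
  set C := MM N (rv gi) (rv X) t r k with hC
  have e0 : ZZ X t ((k*N+r) + (l*N+r')) - C * A =
      ∑ s ∈ range k, Av N (fun g => rv gi g * ((kou N gi X t r' l s g -
        (1 - Av N gi)^s * A) * YY N (rv X) t r (k-1-s) g)) +
      (lou N gi X t r r' k l - (1 - Av N gi)^k * A) := by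
    rw [outer H t r r' k l, hC, MM_eq, pav H]
    have h2 : ∀ s ∈ range k, Av N (fun g => rv gi g * ((kou N gi X t r' l s g -
        (1 - Av N gi)^s * A) * YY N (rv X) t r (k-1-s) g)) =
        Av N (fun g => rv gi g * (kou N gi X t r' l s g * YY N (rv X) t r (k-1-s) g)) -
        ((1 - Av N gi)^s * Av N (fun g => rv gi g * YY N (rv X) t r (k-1-s) g)) * A := by
      intro s _
      rw [mul_right_comm, ← Av_mul, ← Av_sub]
      exact Av_congr fun g _ => by ring
    rw [Finset.sum_congr rfl h2, Finset.sum_sub_distrib, ← Finset.sum_mul]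
    ring
  have h1 : |ZZ X t ((k*N+r) + (l*N+r')) - C * A| ≤
      ∑ s ∈ range (k+1), (ε * (C * A)) * (2 * σ^(s+1) * ρ^s) := by
    rw [e0, Finset.sum_range_succ]
    refine (abs_add_le _ _).trans (add_le_add ?_ ?_)
    · refine (Finset.abs_sum_le_sum_abs _ _).trans (Finset.sum_le_sum fun s hs => ?_)
      rw [Finset.mem_range] at hs
      refine (cs_gi H.rev _ _).trans ?_
      have h3 := b3 (k-1-s) (by omega)
      rw [show k - (k-1-s) = s+1 by omega] at h3
      have h4 := kou_close H P hr' l s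
      calc _ ≤ (A * (ρ^s * ε)) * (2 * σ^(s+1) * C) :=
            mul_le_mul h4 h3 (Real.sqrt_nonneg _) (by positivity)
        _ = _ := by ring
    · refine (lou_close H P hr hr' k l).trans ?_
      have h5 : 1 ≤ C * (2 * σ^(k+1)) := by
        have h6 : σ^k ≤ σ^(k+1) := pow_le_pow_right₀ P.hσ.le (by omega)
        have h7 : σ^k * C ≤ σ^(k+1) * C := mul_le_mul_of_nonneg_right h6 b1.le
        nlinarith [mul_pos (pow_pos hσ0 (k+1)) b1]
      calc A * (ρ^k * ε) ≤ (C * (2 * σ^(k+1))) * (A * (ρ^k * ε)) :=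
            le_mul_of_one_le_left (by positivity) h5
        _ = _ := by ring
  refine h1.trans ?_
  rw [← Finset.mul_sum]
  have h2 : ∑ s ∈ range (k+1), 2 * σ^(s+1) * ρ^s = 2 * σ * ∑ s ∈ range (k+1), (σ * ρ)^s := by
    rw [Finset.mul_sum]
    exact Finset.sum_congr rfl fun s _ => by rw [mul_pow, pow_succ]; ring
  have h3 : ∑ s ∈ range (k+1), 2 * σ^(s+1) * ρ^s ≤ 2 * σ / (1 - σ * ρ) := by
    rw [h2, div_eq_mul_inv]
    apply mul_le_mul_of_nonneg_left _ (by positivity)
    have hσρ := P.hσρ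
    have h3 := geom_sum_eq (x := σ * ρ) (by linarith : σ * ρ ≠ 1) (k+1)
    have hx0 : 0 ≤ σ * ρ := by positivity
    rw [h3, div_eq_mul_inv, show (σ * ρ)^(k+1) - 1 = -(1 - (σ * ρ)^(k+1)) by ring,
      show σ * ρ - 1 = -(1 - σ * ρ) by ring, inv_neg, neg_mul_neg]
    have h4 : 1 - (σ * ρ)^(k+1) ≤ 1 := by linarith [pow_nonneg hx0 (k+1)]
    have h5 : 0 < (1 - σ * ρ)⁻¹ := inv_pos.2 (by linarith)
    nlinarith
  calc (ε * (C * A)) * ∑ s ∈ range (k+1), 2 * σ^(s+1) * ρ^s
      ≤ (ε * (C * A)) * (2 * σ / (1 - σ * ρ)) := mul_le_mul_of_nonneg_left h3 (by positivity)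
    _ = _ := by ring

end Pool.Agent.Zk36.UW
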