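import Pool.Agent.Zk36.UW.Fin

/-! Scaling limits of the winding angle. -/

set_option autoImplicit false

namespace Pool.Agent.Zk36.UW

open MeasureTheory Filter Topology H906K Pool.Agent.Zk36.CG
open scoped ENNReal

/-- `μ` is a scaling limit of the winding angle on the cylinder of circumference `2π` and height
`h`: the weak limit of its laws on lattice cylinders, for some sequence of circumferences `2n+1`
(in lattice units) tending to infinity and heights `ht` tending to `h`. -/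
def ScalingLimit (h : ℝ) (μ : ProbabilityMeasure ℝ) : Prop :=
  ∃ n M : ℕ → ℕ, Tendsto n atTop atTop ∧ Tendsto (fun i => ht (n i) (M i)) atTop (𝓝 h) ∧
    Tendsto (fun i => lawW (n i) (M i)) atTop (𝓝 μ)

theorem ht_nonneg (n M : ℕ) : 0 ≤ ht n M := by unfold ht; positivity

section
variable {t0 K : ℝ} {e : ℕ → ℝ}
  (H : ∀ n : ℕ, 1 ≤ n → ∀ (M : ℕ) (t : ℝ), |t| ≤ t0 →
      |lmg n M t - 3 * t ^ 2 * ht n M| ≤ K * |t| + e n * t ^ 2 * ht n M)
include H

theorem seq_bounds {n M : ℕ → ℕ} (hn : Tendsto n atTop atTop) {t : ℝ} (ht' : |t| ≤ t0) :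
    ∀ᶠ i in atTop,
      Real.exp (3 * t ^ 2 * ht (n i) (M i) - (K * |t| + e (n i) * t ^ 2 * ht (n i) (M i))) ≤
        ∫ x, Real.exp (t * x) ∂(lawW (n i) (M i) : Measure ℝ) ∧
      ∫ x, Real.exp (t * x) ∂(lawW (n i) (M i) : Measure ℝ) ≤
        Real.exp (3 * t ^ 2 * ht (n i) (M i) + (K * |t| + e (n i) * t ^ 2 * ht (n i) (M i))) := by
  filter_upwards [hn.eventually_ge_atTop 1] with i hi
  have h1 := abs_le.1 (H (n i) hi (M i) t ht')
  have e1 : ∫ x, Real.exp (t * x) ∂(lawW (n i) (M i) : Measure ℝ) =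
      Real.exp (lmg (n i) (M i) t) := (exp_lmg _ _ _).symm
  rw [e1]
  constructor <;> apply Real.exp_le_exp.2 <;> linarith [h1.1, h1.2]

theorem seq_lims (he : Tendsto e atTop (𝓝 0)) {n M : ℕ → ℕ} (hn : Tendsto n atTop atTop) {h : ℝ}
    (hM : Tendsto (fun i => ht (n i) (M i)) atTop (𝓝 h)) (t : ℝ) :
    Tendsto (fun i => Real.exp (3 * t ^ 2 * ht (n i) (M i) -
      (K * |t| + e (n i) * t ^ 2 * ht (n i) (M i)))) atTop
      (𝓝 (Real.exp (3 * t ^ 2 * h - K * |t|))) ∧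
    Tendsto (fun i => Real.exp (3 * t ^ 2 * ht (n i) (M i) +
      (K * |t| + e (n i) * t ^ 2 * ht (n i) (M i)))) atTop
      (𝓝 (Real.exp (3 * t ^ 2 * h + K * |t|))) := by
  have h1 : Tendsto (fun i => K * |t| + e (n i) * t ^ 2 * ht (n i) (M i)) atTop
      (𝓝 (K * |t| + 0 * t ^ 2 * h)) :=
    (((he.comp hn).mul_const _).mul hM).const_add _
  rw [zero_mul, zero_mul, add_zero] at h1
  have h2 : Tendsto (fun i => 3 * t ^ 2 * ht (n i) (M i)) atTop (𝓝 (3 * t ^ 2 * h)) :=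
    hM.const_mul _
  exact ⟨(Real.continuous_exp.tendsto _).comp (h2.sub h1),
    (Real.continuous_exp.tendsto _).comp (h2.add h1)⟩

theorem exists_limit (ht0 : 0 < t0) (he : Tendsto e atTop (𝓝 0)) {n M : ℕ → ℕ}
    (hn : Tendsto n atTop atTop) {h : ℝ}
    (hM : Tendsto (fun i => ht (n i) (M i)) atTop (𝓝 h)) :
    ∃ φ : ℕ → ℕ, StrictMono φ ∧ ∃ μ : ProbabilityMeasure ℝ,
      Tendsto (fun i => lawW (n (φ i)) (M (φ i))) atTop (𝓝 μ) := by
  have b1 := seq_bounds H hn (M := M) (t := t0) (by rw [abs_of_pos ht0])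
  have b2 := seq_bounds H hn (M := M) (t := -t0) (by rw [abs_neg, abs_of_pos ht0])
  have l1 := (seq_lims H he hn hM t0).2
  have l2 := (seq_lims H he hn hM (-t0)).2
  set U := max (Real.exp (3 * t0 ^ 2 * h + K * |t0|)) (Real.exp (3 * (-t0) ^ 2 * h + K * |-t0|)) + 1
    with hU
  have c1 : Real.exp (3 * t0 ^ 2 * h + K * |t0|) < U :=
    lt_of_le_of_lt (le_max_left _ _) (lt_add_one _)
  have c2 : Real.exp (3 * (-t0) ^ 2 * h + K * |-t0|) < U :=
    lt_of_le_of_lt (le_max_right _ _) (lt_add_one _)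
  obtain ⟨N, hN⟩ := eventually_atTop.1
    (b1.and (b2.and ((l1.eventually_lt_const c1).and (l2.eventually_lt_const c2))))
  set S : Set (ProbabilityMeasure ℝ) := Set.range (fun i => lawW (n (i + N)) (M (i + N))) with hS
  have htight := tight_exp (U := U) ht0 (S := S) (by
    rintro ν ⟨i, rfl⟩
    obtain ⟨a1, a2, a3, a4⟩ := hN (i + N) (Nat.le_add_left _ _)
    exact ⟨law_intble _ _ _, law_intble _ _ _, a1.2.trans a3.le, a2.2.trans a4.le⟩)
  have hcomp := isCompact_closure_of_isTightMeasureSet htight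
  obtain ⟨μ, _, φ, hφ, hμ⟩ := hcomp.tendsto_subseq
    (x := fun i => lawW (n (i + N)) (M (i + N))) (fun i => subset_closure ⟨i, rfl⟩)
  exact ⟨fun i => φ i + N, fun i j hij => Nat.add_lt_add_right (hφ hij) N, μ, hμ⟩

theorem limit_exp (he : Tendsto e atTop (𝓝 0)) {h : ℝ} {μ : ProbabilityMeasure ℝ}
    (hμ : ScalingLimit h μ) {t : ℝ} (ht2 : |2 * t| ≤ t0) :
    Integrable (fun x => Real.exp (t * x)) (μ : Measure ℝ) ∧
    ∫ x, Real.exp (t * x) ∂(μ : Measure ℝ) ≤ Real.exp (3 * t ^ 2 * h + K * |t|) ∧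
    Real.exp (3 * t ^ 2 * h - K * |t|) ≤ ∫ x, Real.exp (t * x) ∂(μ : Measure ℝ) := by
  obtain ⟨n, M, hn, hM, hl⟩ := hμ
  have ht1 : |t| ≤ t0 := by
    refine le_trans ?_ ht2
    rw [abs_mul, abs_two]
    linarith [abs_nonneg t]
  have b1 := seq_bounds H hn (M := M) ht1
  have b2 := seq_bounds H hn (M := M) ht2
  have l1 := seq_lims H he hn hM t
  have l2 := seq_lims H he hn hM (2 * t)
  have i1 : ∀ᶠ i in atTop, Integrable (fun x => Real.exp (t * x))
      (lawW (n i) (M i) : Measure ℝ) := Eventually.of_forall fun i => law_intble _ _ _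
  have i2 : ∀ᶠ i in atTop, Integrable (fun x => Real.exp (2 * t * x))
      (lawW (n i) (M i) : Measure ℝ) := Eventually.of_forall fun i => law_intble _ _ _
  obtain ⟨c1, c2⟩ := lim_up hl i1 (b1.mono fun i hi => hi.2) l1.2
  exact ⟨c1, c2, lim_lo hl c1 i1 i2 (b1.mono fun i hi => hi.1) (b2.mono fun i hi => hi.2)
    l1.1 l2.2⟩

end

/-- existence of scaling limits along subsequences -/
theorem subseq (h : ℝ) (n M : ℕ → ℕ) (hn : Tendsto n atTop atTop)
    (hM : Tendsto (fun i => ht (n i) (M i)) atTop (𝓝 h)) :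
    ∃ φ : ℕ → ℕ, StrictMono φ ∧ ∃ μ : ProbabilityMeasure ℝ,
      Tendsto (fun i => lawW (n (φ i)) (M (φ i))) atTop (𝓝 μ) := by
  obtain ⟨t0, ht0, K, hK, e, he, he0, H⟩ := uniform_laplace
  exact exists_limit H ht0 he hn hM

/-- exponential moments of the scaling limits -/
theorem limit_moments : ∃ t0 : ℝ, 0 < t0 ∧ ∃ K : ℝ, 0 ≤ K ∧ ∀ (h : ℝ) (μ : ProbabilityMeasure ℝ),
    ScalingLimit h μ → ∀ t : ℝ, |t| ≤ t0 →
      Integrable (fun x => Real.exp (t * x)) (μ : Measure ℝ) ∧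
      |Real.log (∫ x, Real.exp (t * x) ∂(μ : Measure ℝ)) - 3 * t ^ 2 * h| ≤ K * |t| := by
  obtain ⟨t0, ht0, K, hK, e, he, he0, H⟩ := uniform_laplace
  refine ⟨t0 / 2, by positivity, K, hK, fun h μ hμ t ht => ?_⟩
  have ht2 : |2 * t| ≤ t0 := by rw [abs_mul, abs_two]; linarith
  obtain ⟨c1, c2, c3⟩ := limit_exp H he hμ ht2
  refine ⟨c1, ?_⟩
  have hpos : 0 < ∫ x, Real.exp (t * x) ∂(μ : Measure ℝ) := (Real.exp_pos _).trans_le c3
  rw [abs_le]
  constructor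
  · have := Real.log_le_log (Real.exp_pos _) c3
    rw [Real.log_exp] at this
    linarith
  · have := Real.log_le_log hpos c2
    rw [Real.log_exp] at this
    linarith

theorem limit_lap : ∃ t0 : ℝ, 0 < t0 ∧ ∃ D : ℝ, 0 ≤ D ∧ ∀ (h : ℝ) (μ : ProbabilityMeasure ℝ),
    ScalingLimit h μ → Lap (μ : Measure ℝ) t0 h D := by
  obtain ⟨t0, ht0, K, hK, e, he, he0, H⟩ := uniform_laplace
  refine ⟨t0 / 2, by positivity, K * (t0 / 2), by positivity, fun h μ hμ => ?_⟩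
  have h2 : ∀ t : ℝ, |t| ≤ t0 / 2 → |2 * t| ≤ t0 := by
    intro t ht
    rw [abs_mul, abs_two]; linarith
  refine ⟨fun t ht => (limit_exp H he hμ (h2 t ht)).1, fun t ht => ?_, fun t ht => ?_⟩
  · refine (limit_exp H he hμ (h2 t ht)).2.1.trans (Real.exp_le_exp.2 ?_)
    have := mul_le_mul_of_nonneg_left ht hK
    linarith
  · refine le_trans (Real.exp_le_exp.2 ?_) (limit_exp H he hμ (h2 t ht)).2.2
    have := mul_le_mul_of_nonneg_left ht hK
    linarith

theorem lap_dev {μ : Measure ℝ} [IsProbabilityMeasure μ] {t0 h D : ℝ} (ht0 : 0 < t0)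
    (hD : 0 ≤ D) (L : Lap μ t0 h D) {A : ℝ} (hA : 0 < A) (hA2 : 3 * A ^ 2 = 2 * D + Real.log 4)
    (h1 : 1 ≤ h) (h2 : 4 * A / t0 ≤ Real.sqrt h) {a : ℝ} (ha : 0 < a) (hat : a < 3 * t0) :
    Real.exp (-(a ^ 2 / 12) * h - (6 * t0 * A + 9 * A ^ 2 + D + Real.log 2) * Real.sqrt h) ≤
      μ.real (Set.Ici (a * h)) ∧
    μ.real (Set.Ici (a * h)) ≤ Real.exp (-(a ^ 2 / 12) * h + D) := by
  have hh : 0 < h := lt_of_lt_of_le one_pos h1
  have hs : 0 < Real.sqrt h := Real.sqrt_pos.2 hh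
  have hss : Real.sqrt h * Real.sqrt h = h := Real.mul_self_sqrt hh.le
  have hs1 : 1 ≤ Real.sqrt h := Real.one_le_sqrt.2 h1
  have hl2 : 0 ≤ Real.log 2 := Real.log_nonneg (by norm_num)
  refine ⟨?_, dev_up L ha.le (by linarith)⟩
  have hδ : 0 < A / Real.sqrt h := by positivity
  have e1 : A / Real.sqrt h ≤ t0 / 4 := by
    rw [div_le_iff₀ hs]
    rw [div_le_iff₀ ht0] at h2
    linarith
  have e2 : (A / Real.sqrt h) ^ 2 * h = A ^ 2 := by
    rw [div_pow, Real.sq_sqrt hh.le]; field_simp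
  have e3 : A / Real.sqrt h * h = A * Real.sqrt h := by
    rw [div_mul_eq_mul_div, div_eq_iff hs.ne', mul_assoc, hss]
  have h3 := dev_lo L hh.le ha.le hδ (by linarith) (by
    rw [show 3 * (A / Real.sqrt h) ^ 2 * h = 3 * ((A / Real.sqrt h) ^ 2 * h) by ring, e2, hA2])
  refine le_trans ?_ h3
  have e4 : Real.exp (-Real.log 2) = 1 / 2 := by
    rw [Real.exp_neg, Real.exp_log (by norm_num)]; norm_num
  rw [div_eq_mul_one_div (Real.exp _) 2, ← e4, ← Real.exp_add]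
  apply Real.exp_le_exp.2
  have e5 : (2 * a * (A / Real.sqrt h) + 9 * (A / Real.sqrt h) ^ 2) * h =
      2 * a * (A * Real.sqrt h) + 9 * A ^ 2 := by
    rw [add_mul, mul_assoc (2 * a), e3, mul_assoc 9, e2]
  rw [e5]
  have q1 : 2 * a * (A * Real.sqrt h) ≤ 6 * t0 * (A * Real.sqrt h) :=
    mul_le_mul_of_nonneg_right (by linarith) (by positivity)
  have q2 : (9 * A ^ 2 + D + Real.log 2) * 1 ≤ (9 * A ^ 2 + D + Real.log 2) * Real.sqrt h :=
    mul_le_mul_of_nonneg_left hs1 (by positivity)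
  linarith

/-- deviation probabilities of the scaling limits -/
theorem limit_deviations : ∃ a0 : ℝ, 0 < a0 ∧ ∃ C : ℝ, ∀ (h : ℝ) (μ : ProbabilityMeasure ℝ),
    ScalingLimit h μ → C ≤ h → ∀ a : ℝ, 0 < a → a < a0 →
      Real.exp (-(a ^ 2 / 12) * h - C * Real.sqrt h) ≤ (μ : Measure ℝ).real (Set.Ici (a * h)) ∧
      (μ : Measure ℝ).real (Set.Ici (a * h)) ≤ Real.exp (-(a ^ 2 / 12) * h + C) ∧
      Real.exp (-(a ^ 2 / 12) * h - C * Real.sqrt h) ≤
        (μ : Measure ℝ).real (Set.Iic (-(a * h))) ∧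
      (μ : Measure ℝ).real (Set.Iic (-(a * h))) ≤ Real.exp (-(a ^ 2 / 12) * h + C) := by
  obtain ⟨t0, ht0, D, hD, L⟩ := limit_lap
  have hl4 : 0 < Real.log 4 := Real.log_pos (by norm_num)
  have hl2 : 0 < Real.log 2 := Real.log_pos (by norm_num)
  set A := Real.sqrt ((2 * D + Real.log 4) / 3) with hAd
  have hA : 0 < A := Real.sqrt_pos.2 (by positivity)
  have hA2 : 3 * A ^ 2 = 2 * D + Real.log 4 := by
    rw [hAd, Real.sq_sqrt (by positivity)]; ring
  set C := max (max 1 ((4 * A / t0) ^ 2)) (6 * t0 * A + 9 * A ^ 2 + D + Real.log 2) with hC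
  refine ⟨3 * t0, by positivity, C, fun h μ hμ hCh a ha hat => ?_⟩
  have h1 : 1 ≤ h := (le_max_left _ _).trans ((le_max_left _ _).trans hCh)
  have h2 : 4 * A / t0 ≤ Real.sqrt h :=
    Real.le_sqrt_of_sq_le ((le_max_right _ _).trans ((le_max_left _ _).trans hCh))
  have h3 : 6 * t0 * A + 9 * A ^ 2 + D + Real.log 2 ≤ C := le_max_right _ _
  have hDC : D ≤ C := by
    refine le_trans ?_ h3
    have : 0 ≤ 6 * t0 * A := by positivity
    have : 0 ≤ 9 * A ^ 2 := by positivity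
    linarith
  have hs : 0 ≤ Real.sqrt h := Real.sqrt_nonneg _
  obtain ⟨r1, r2⟩ := lap_dev ht0 hD (L h μ hμ) hA hA2 h1 h2 ha hat
  obtain ⟨r3, r4⟩ := lap_dev ht0 hD (L h μ hμ).neg hA hA2 h1 h2 ha hat
  rw [neg_Ici] at r3 r4
  have k1 : Real.exp (-(a ^ 2 / 12) * h - C * Real.sqrt h) ≤
      Real.exp (-(a ^ 2 / 12) * h - (6 * t0 * A + 9 * A ^ 2 + D + Real.log 2) * Real.sqrt h) := by
    apply Real.exp_le_exp.2
    have := mul_le_mul_of_nonneg_right h3 hs
    linarith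
  have k2 : Real.exp (-(a ^ 2 / 12) * h + D) ≤ Real.exp (-(a ^ 2 / 12) * h + C) := by
    apply Real.exp_le_exp.2
    linarith
  exact ⟨k1.trans r1, r2.trans k2, k1.trans r3, r4.trans k2⟩

end Pool.Agent.Zk36.UW
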