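import Pool.Agent.Zk36.UW.Two

/-! The abstract theorem: uniform almost additivity of the logarithm of the partition function. -/

set_option autoImplicit false
set_option linter.unusedSectionVars false

namespace Pool.Agent.Zk36.UW

open Finset Filter Topology

section
variable {β : Type} [Fintype β] [Nonempty β]
variable {N : ℕ} {gi X : List β → ℝ} {c0 θ B : ℝ}

theorem Hyp.half (H : Hyp N gi X c0 θ B) (hB : 0 ≤ B) : Hyp N gi X c0 (θ/2) (√B) where
  gi01 := H.gi01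
  split := H.split
  pos := H.pos
  mom L k hk hL := by
    have h1 := Av_cs L (fun _ => (1:ℝ)) (fun w => Real.exp (θ / 2 * |X w|))
    simp only [one_mul, one_pow] at h1
    rw [Av_const, one_mul] at h1
    have h2 : Av L (fun w => Real.exp (θ / 2 * |X w|) ^ 2) = Av L (fun w => Real.exp (θ * |X w|)) :=
      Av_congr fun w _ => by
        rw [← Real.exp_nat_mul]; congr 1; push_cast; ring
    rw [h2] at h1
    have h3 := h1.trans (H.mom L k hk hL)
    have h4 : (√B)^k = √(B^k) := by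
      rw [Real.sqrt_eq_rpow, Real.sqrt_eq_rpow, ← Real.rpow_natCast, ← Real.rpow_natCast,
        ← Real.rpow_mul hB, ← Real.rpow_mul hB]
      congr 1; ring
    rw [h4]
    exact Real.le_sqrt_of_sq_le h3

theorem Hyp.pow (H : Hyp N gi X c0 θ B) (hB : 1 ≤ B) (j : ℕ) :
    Hyp N gi X c0 (θ/2^j) (B^((1/2:ℝ)^j)) := by
  induction j with
  | zero => rw [pow_zero, pow_zero, div_one, Real.rpow_one]; exact H
  | succ j ih =>
    have h1 := ih.half (Real.rpow_nonneg (by linarith) _)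
    have e1 : θ / 2^j / 2 = θ / 2^(j+1) := by rw [pow_succ]; field_simp
    have e2 : √(B^((1/2:ℝ)^j)) = B^((1/2:ℝ)^(j+1)) := by
      rw [Real.sqrt_eq_rpow, ← Real.rpow_mul (by linarith), pow_succ]
    rw [e1, e2] at h1
    exact h1

end

theorem log_close {Z P δ : ℝ} (hP : 0 < P) (hδ0 : 0 ≤ δ) (hδ : δ ≤ 1/2) (h : |Z - P| ≤ δ * P) :
    |Real.log Z - Real.log P| ≤ 2 * δ := by
  rw [abs_le] at h
  have hZ : P / 2 ≤ Z := by nlinarith [h.1]
  have hZ0 : 0 < Z := by linarith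
  rw [abs_le]
  constructor
  · have h1 := Real.log_le_sub_one_of_pos (div_pos hP hZ0)
    rw [Real.log_div hP.ne' hZ0.ne'] at h1
    have h2 : P / Z - 1 ≤ 2 * δ := by
      rw [sub_le_iff_le_add, div_le_iff₀ hZ0]
      nlinarith [h.1]
    linarith
  · have h1 := Real.log_le_sub_one_of_pos (div_pos hZ0 hP)
    rw [Real.log_div hZ0.ne' hP.ne'] at h1
    have h2 : Z / P - 1 ≤ δ := by
      rw [sub_le_iff_le_add, div_le_iff₀ hP]
      nlinarith [h.2]
    linarith

/-- **uniform almost additivity** -/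
theorem quasi (c0 θ B : ℝ) (hc : 0 < c0) (hc1 : c0 ≤ 1) (hθ : 0 < θ) (hB : 1 ≤ B) :
    ∃ t0 : ℝ, 0 < t0 ∧ ∃ K : ℝ, 0 ≤ K ∧ ∀ (β : Type) [Fintype β] [Nonempty β] (N : ℕ)
      (gi X : List β → ℝ), 1 ≤ N → Hyp N gi X c0 θ B → ∀ t : ℝ, |t| ≤ t0 → ∀ M M' : ℕ,
        |Real.log (ZZ X t (M + M')) - Real.log (ZZ X t M) - Real.log (ZZ X t M')| ≤ K * |t| := by
  have hlim : Tendsto (fun j : ℕ => (1 - c0) * B^((1/2:ℝ)^j)) atTop (𝓝 ((1 - c0) * B^(0:ℝ))) := by
    apply Tendsto.const_mul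
    have h1 : Tendsto (fun j : ℕ => (1/2:ℝ)^j) atTop (𝓝 0) :=
      tendsto_pow_atTop_nhds_zero_of_lt_one (by norm_num) (by norm_num)
    exact (Real.continuousAt_const_rpow (by linarith : B ≠ 0)).tendsto.comp h1
  rw [Real.rpow_zero, mul_one] at hlim
  obtain ⟨j, hj⟩ := (hlim.eventually (gt_mem_nhds (show 1 - c0 < 1 - c0/2 by linarith))).exists
  set θ' := θ / 2^j with hθ'
  set B' := B^((1/2:ℝ)^j) with hB'
  have hθ0 : 0 < θ' := by positivity
  have hB1 : 1 ≤ B' := Real.one_le_rpow hB (by positivity)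
  set ρ := √(1 - c0/2) with hρ
  have hρ2 : ρ^2 = 1 - c0/2 := Real.sq_sqrt (by linarith)
  have hρ0 : 0 < ρ := Real.sqrt_pos.2 (by linarith)
  have hρ1 : ρ < 1 := by nlinarith
  set σ := 1/√ρ with hσd
  have hsρ0 : 0 < √ρ := Real.sqrt_pos.2 hρ0
  have hsρ1 : √ρ < 1 := by
    rw [← Real.sqrt_one]
    exact Real.sqrt_lt_sqrt hρ0.le hρ1
  have hσ : 1 < σ := by rw [hσd, lt_div_iff₀ hsρ0]; linarith
  have hσρ : σ * ρ = √ρ := by
    rw [hσd]
    have := Real.mul_self_sqrt hρ0.le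
    field_simp
    nlinarith
  have hσρ1 : σ * ρ < 1 := by rw [hσρ]; exact hsρ1
  set S := 2 * σ / (1 - σ * ρ) with hS
  have hS0 : 0 < S := by
    have : 0 < 1 - σ * ρ := by linarith
    positivity
  set a := S * √216 * B' / θ' with ha
  have ha0 : 0 < a := by positivity
  set e0 := 1 - 1/σ with he0
  have he00 : 0 < e0 := by
    rw [he0, sub_pos, div_lt_one (by linarith)]; exact hσ
  refine ⟨min (θ'/12) (min (e0/a) (1/(2*S*a))), by positivity, 6*S*a, by positivity, ?_⟩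
  intro β _ _ N gi X hN H0 t ht M M'
  have H := H0.pow hB j
  have ht1 : |t| ≤ θ'/12 := ht.trans (min_le_left _ _)
  have ht2 : |t| ≤ e0/a := ht.trans ((min_le_right _ _).trans (min_le_left _ _))
  have ht3 : |t| ≤ 1/(2*S*a) := ht.trans ((min_le_right _ _).trans (min_le_right _ _))
  set ε := a * |t| with hε
  have hε0 : 0 ≤ ε := by positivity
  have hεe : ε ≤ e0 := by
    rw [hε, mul_comm]; exact (le_div_iff₀ ha0).1 ht2
  have hεS : ε * S ≤ 1/2 := by
    have := (le_div_iff₀ (by positivity : 0 < 2*S*a)).1 ht3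
    rw [hε]; nlinarith
  have P : Par c0 θ' B' σ ρ ε t := by
    refine ⟨hθ0, hB1, hσ, hρ0, hσρ1, ?_, ht1, hε0, ?_, ?_, ?_⟩
    · rw [hρ2]; exact hj.le
    · apply le_of_eq
      have h216 : √216 ^ 2 = (216:ℝ) := Real.sq_sqrt (by norm_num)
      calc (2 * σ / (1 - σ * ρ))^2 * (216 * (t/θ')^2 * B'^2)
          = S^2 * (√216^2 * (t/θ')^2 * B'^2) := by rw [h216]
        _ = (S * √216 * B' / θ')^2 * t^2 := by ring
        _ = ε^2 := by rw [← ha, hε, mul_pow, sq_abs]
    · have h1 : σ * (1 - ε) ≥ σ * (1 - e0) := mul_le_mul_of_nonneg_left (by linarith) (by linarith)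
      have h2 : σ * (1 - e0) = 1 := by
        rw [he0]
        have : σ ≠ 0 := by linarith
        field_simp
        ring
      linarith
    · have : 0 < 1/σ := by positivity
      linarith
  have hdM : M / N * N + M % N = M := Nat.div_add_mod' M N
  have hdM' : M' / N * N + M' % N = M' := Nat.div_add_mod' M' N
  have hr : M % N ≤ N := (Nat.mod_lt _ (by omega)).le
  have hr' : M' % N ≤ N := (Nat.mod_lt _ (by omega)).le
  obtain ⟨A0, -⟩ := main_ind H P hr' (M'/N)
  obtain ⟨C0, -⟩ := main_ind H.rev P hr (M/N)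
  set A := MM N gi X t (M'%N) (M'/N) with hA
  set C := MM N (rv gi) (rv X) t (M%N) (M/N) with hC
  have t1 := two_sided H P hr hr' (M/N) (M'/N)
  have t2 := two_sided H P hr (Nat.zero_le N) (M/N) 0
  have t3 := two_sided H P (Nat.zero_le N) hr' 0 (M'/N)
  have e1 : MM N gi X t 0 0 = 1 := rfl
  have e2 : MM N (rv gi) (rv X) t 0 0 = 1 := rfl
  rw [hdM, hdM', ← hC, ← hA, ← hS] at t1
  rw [hdM, ← hC, ← hS, e1, mul_one, zero_mul, add_zero, add_zero] at t2
  rw [hdM', ← hA, ← hS, e2, one_mul, zero_mul, zero_add, zero_add] at t3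
  have hδ0 : 0 ≤ ε * S := by positivity
  have l1 := log_close (mul_pos C0 A0) hδ0 hεS t1
  have l2 := log_close C0 hδ0 hεS t2
  have l3 := log_close A0 hδ0 hεS t3
  rw [Real.log_mul C0.ne' A0.ne'] at l1
  have e3 : 6 * S * a * |t| = 2 * (ε * S) + 2 * (ε * S) + 2 * (ε * S) := by rw [hε]; ring
  rw [e3]
  rw [abs_le] at l1 l2 l3 ⊢
  constructor <;> linarith [l1.1, l1.2, l2.1, l2.2, l3.1, l3.2]

end Pool.Agent.Zk36.UW
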