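import Mathlib

/-! Averages over words. -/

set_option autoImplicit false

namespace Pool.Agent.Zk36.UW

open Finset

section
variable {β : Type} [Fintype β]

/-- average over the words of length `k` -/
noncomputable def Av : ℕ → (List β → ℝ) → ℝ
  | 0, F => F []
  | k + 1, F => (∑ b, Av k (fun w => F (b :: w))) / Fintype.card β

theorem Av_succ (k : ℕ) (F : List β → ℝ) :
    Av (k + 1) F = (∑ b, Av k (fun w => F (b :: w))) / Fintype.card β := rfl

theorem Av_congr {k : ℕ} {F G : List β → ℝ} (h : ∀ w, w.length = k → F w = G w) :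
    Av k F = Av k G := by
  induction k generalizing F G with
  | zero => exact h [] rfl
  | succ k ih =>
    unfold Av
    congr 1
    exact Finset.sum_congr rfl fun b _ => ih fun w hw => h (b :: w) (by simp [hw])

theorem Av_mono {k : ℕ} {F G : List β → ℝ} (h : ∀ w, w.length = k → F w ≤ G w) :
    Av k F ≤ Av k G := by
  induction k generalizing F G with
  | zero => exact h [] rfl
  | succ k ih =>
    unfold Av
    apply div_le_div_of_nonneg_right _ (Nat.cast_nonneg _)
    exact Finset.sum_le_sum fun b _ => ih fun w hw => h (b :: w) (by simp [hw])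

theorem Av_add (k : ℕ) (F G : List β → ℝ) : Av k (fun w => F w + G w) = Av k F + Av k G := by
  induction k generalizing F G with
  | zero => rfl
  | succ k ih =>
    unfold Av
    rw [← add_div, ← Finset.sum_add_distrib]
    congr 1
    exact Finset.sum_congr rfl fun b _ => ih _ _

theorem Av_mul (k : ℕ) (a : ℝ) (F : List β → ℝ) : Av k (fun w => a * F w) = a * Av k F := by
  induction k generalizing F with
  | zero => rfl
  | succ k ih =>
    unfold Av
    rw [← mul_div_assoc, Finset.mul_sum]
    congr 1
    exact Finset.sum_congr rfl fun b _ => ih _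

theorem Av_mul_right (k : ℕ) (a : ℝ) (F : List β → ℝ) : Av k (fun w => F w * a) = Av k F * a := by
  rw [mul_comm, ← Av_mul]
  exact Av_congr fun w _ => mul_comm _ _

theorem Av_zero (k : ℕ) : Av k (fun _ : List β => (0:ℝ)) = 0 := by
  have := Av_mul k 0 (fun _ : List β => (0:ℝ))
  simpa using this

theorem Av_sub (k : ℕ) (F G : List β → ℝ) : Av k (fun w => F w - G w) = Av k F - Av k G := by
  have h1 : Av k (fun w => F w - G w) = Av k (fun w => F w + (-1) * G w) :=
    Av_congr fun w _ => by ring
  rw [h1, Av_add, Av_mul]; ring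

theorem Av_sum {ι : Type*} (k : ℕ) (s : Finset ι) (F : ι → List β → ℝ) :
    Av k (fun w => ∑ i ∈ s, F i w) = ∑ i ∈ s, Av k (F i) := by
  classical
  induction s using Finset.induction_on with
  | empty => simp only [Finset.sum_empty]; exact Av_zero k
  | insert a s ha ih =>
    rw [Finset.sum_insert ha, ← ih, ← Av_add]
    exact Av_congr fun w _ => Finset.sum_insert ha

theorem Av_nonneg {k : ℕ} {F : List β → ℝ} (h : ∀ w, w.length = k → 0 ≤ F w) : 0 ≤ Av k F := by
  rw [← Av_zero (β := β) k]; exact Av_mono h

theorem Av_comm (k l : ℕ) (F : List β → List β → ℝ) :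
    Av k (fun u => Av l (fun v => F u v)) = Av l (fun v => Av k (fun u => F u v)) := by
  induction k generalizing F with
  | zero => rfl
  | succ k ih =>
    have h : ∀ v, Av (k+1) (fun u => F u v) =
        (Fintype.card β : ℝ)⁻¹ * ∑ b, Av k (fun u => F (b :: u) v) := fun v => by
      rw [mul_comm]; rfl
    simp only [h]
    rw [Av_mul, Av_sum, mul_comm]
    have h2 : Av (k+1) (fun u => Av l (fun v => F u v)) =
      (∑ b, Av k (fun u => Av l (fun v => F (b :: u) v))) * (Fintype.card β : ℝ)⁻¹ := rfl
    rw [h2]
    congr 1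
    exact Finset.sum_congr rfl fun b _ => ih fun u v => F (b :: u) v

theorem Av_append (k l : ℕ) (F : List β → ℝ) :
    Av (k + l) F = Av k (fun u => Av l (fun v => F (u ++ v))) := by
  induction k generalizing F with
  | zero => rw [zero_add]; rfl
  | succ k ih =>
    rw [show k + 1 + l = k + l + 1 by ring]
    unfold Av
    congr 1
    exact Finset.sum_congr rfl fun b _ => ih _

variable [Nonempty β]

theorem Av_const (k : ℕ) (a : ℝ) : Av k (fun _ : List β => a) = a := by
  induction k with
  | zero => rfl
  | succ k ih =>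
    rw [Av_succ]
    simp only [ih]
    rw [Finset.sum_const, Finset.card_univ, nsmul_eq_mul]
    have : (Fintype.card β : ℝ) ≠ 0 := by exact_mod_cast Fintype.card_ne_zero
    field_simp

theorem Av_pos {k : ℕ} {F : List β → ℝ} (h : ∀ w, 0 < F w) : 0 < Av k F := by
  induction k generalizing F with
  | zero => exact h []
  | succ k ih =>
    unfold Av
    apply div_pos
    · exact Finset.sum_pos (fun b _ => ih fun w => h _) Finset.univ_nonempty
    · exact_mod_cast Fintype.card_pos

end

section
variable {β : Type} [Fintype β]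

theorem Av_one (F : List β → ℝ) : Av 1 F = (∑ b, F [b]) / Fintype.card β := rfl

theorem Av_reverse (k : ℕ) (F : List β → ℝ) : Av k (fun w => F w.reverse) = Av k F := by
  induction k generalizing F with
  | zero => rfl
  | succ k ih =>
    have h1 : Av (k+1) (fun w => F w.reverse) =
        (∑ b, Av k (fun w => F (w ++ [b]))) / Fintype.card β := by
      rw [Av_succ]
      congr 1
      refine Finset.sum_congr rfl fun b _ => ?_
      rw [← ih (fun w => F (w ++ [b]))]
      exact Av_congr fun w _ => by rw [List.reverse_cons]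
    rw [h1, Av_append]
    simp only [Av_one]
    have h2 : Av k (fun u => (∑ b, F (u ++ [b])) / (Fintype.card β : ℝ)) =
        Av k (fun u => ∑ b, (fun b u => (Fintype.card β : ℝ)⁻¹ * F (u ++ [b])) b u) :=
      Av_congr fun u _ => by rw [← Finset.mul_sum]; ring
    rw [h2, Av_sum]
    simp only [Av_mul]
    rw [← Finset.mul_sum]; ring

theorem Av_cs (k : ℕ) (F G : List β → ℝ) :
    (Av k (fun w => F w * G w))^2 ≤ Av k (fun w => F w ^ 2) * Av k (fun w => G w ^ 2) := by
  have key : ∀ x : ℝ, 0 ≤ Av k (fun w => G w ^ 2) * (x * x) +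
      (2 * Av k (fun w => F w * G w)) * x + Av k (fun w => F w ^ 2) := by
    intro x
    have h1 : 0 ≤ Av k (fun w => (F w + x * G w)^2) := Av_nonneg fun w _ => sq_nonneg _
    have h2 : Av k (fun w => (F w + x * G w)^2) =
        Av k (fun w => F w ^ 2 + ((2 * x) * (F w * G w) + (x * x) * G w ^ 2)) :=
      Av_congr fun w _ => by ring
    rw [h2, Av_add, Av_add, Av_mul, Av_mul] at h1
    linarith
  have h := discrim_le_zero key
  unfold discrim at h
  nlinarith

theorem Av_abs (k : ℕ) (F : List β → ℝ) : |Av k F| ≤ Av k (fun w => |F w|) := by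
  rw [abs_le]
  constructor
  · rw [neg_le, ← neg_one_mul, ← Av_mul]
    exact Av_mono fun w _ => by rw [neg_one_mul]; exact neg_le_abs _
  · exact Av_mono fun w _ => le_abs_self _

end

end Pool.Agent.Zk36.UW
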