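import Pool.Agent.Y280.KW.BKX
import Pool.Agent.Y961.KW.Dcp

/-! Number of disjoint crossings of long rectangles: the exponential rate per crossing does not
depend on the length. -/

set_option autoImplicit false

namespace Pool.Agent.Zk36.UW

open Y994.KW Y280.KW

/-- `r` disjoint sets with crossings of types in `T` -/
def ET (N : ℕ) (ε : ℤ) (T : List (Bool × ℤ)) (r : ℕ) (F : Finset Pt) : Prop :=
  ∃ s : Finset ℕ, s.card = r ∧ ∃ f : ℕ → Finset Pt, (∀ i ∈ s, f i ⊆ F) ∧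
    (∀ i ∈ s, ∀ j ∈ s, i ≠ j → Disjoint (f i) (f j)) ∧ ∀ i ∈ s, ∃ t ∈ T, Ty N ε t.1 t.2 (f i)

theorem ET_incr (S : Finset Pt) (N : ℕ) (ε : ℤ) (T : List (Bool × ℤ)) (r : ℕ) :
    H974.IncrE S (ET N ε T r) := by
  rintro F G hFG _ ⟨s, h0, f, h1, h2, h3⟩
  exact ⟨s, h0, f, fun i hi => (h1 i hi).trans hFG, h2, h3⟩

/-- splitting off one type -/
theorem ET_split {N : ℕ} {ε : ℤ} {t : Bool × ℤ} {T : List (Bool × ℤ)} {r : ℕ} {F : Finset Pt}
    (h : ET N ε (t :: T) r F) : ∃ j : Fin (r+1),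
      H974.DisjOcc (DN j (Ty N ε t.1 t.2)) (ET N ε T (r - j)) F := by
  classical
  obtain ⟨s, h0, f, h1, h2, h3⟩ := h
  set a := s.filter (fun i => Ty N ε t.1 t.2 (f i)) with ha
  set b := s.filter (fun i => ¬ Ty N ε t.1 t.2 (f i)) with hb
  have hab : a.card + b.card = s.card := Finset.card_filter_add_card_filter_not _
  refine ⟨⟨a.card, by omega⟩, a.biUnion f, b.biUnion f, ?_, ?_, ?_, ?_, ?_⟩
  · exact Finset.biUnion_subset.mpr fun i hi => h1 i (Finset.mem_filter.1 hi).1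
  · exact Finset.biUnion_subset.mpr fun i hi => h1 i (Finset.mem_filter.1 hi).1
  · rw [Finset.disjoint_biUnion_left]
    intro i hi
    rw [Finset.disjoint_biUnion_right]
    intro j hj
    apply h2 i (Finset.mem_filter.1 hi).1 j (Finset.mem_filter.1 hj).1
    rintro rfl
    exact (Finset.mem_filter.1 hj).2 (Finset.mem_filter.1 hi).2
  · refine ⟨fun k => f (a.orderEmbOfFin rfl k), fun k => ?_, fun k l hkl => ?_, fun k => ?_⟩
    · exact Finset.subset_biUnion_of_mem f (Finset.orderEmbOfFin_mem a rfl k)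
    · apply h2 _ (Finset.mem_filter.1 (Finset.orderEmbOfFin_mem a rfl k)).1 _
        (Finset.mem_filter.1 (Finset.orderEmbOfFin_mem a rfl l)).1
      intro h
      exact hkl ((a.orderEmbOfFin rfl).injective h)
    · exact (Finset.mem_filter.1 (Finset.orderEmbOfFin_mem a rfl k)).2
  · refine ⟨b, by simp only; omega, f, fun i hi => Finset.subset_biUnion_of_mem f hi,
      fun i hi j hj => h2 i (Finset.mem_filter.1 hi).1 j (Finset.mem_filter.1 hj).1, fun i hi => ?_⟩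
    obtain ⟨hi1, hi2⟩ := Finset.mem_filter.1 hi
    obtain ⟨t', ht', h4⟩ := h3 i hi1
    rcases List.mem_cons.1 ht' with h5 | h5
    · subst h5; exact absurd h4 hi2
    · exact ⟨t', h5, h4⟩

theorem ET_le {p : ℝ} (hp0 : 0 < p) (hp1 : p < 1) {N : ℕ} {ε : ℤ} {S : Finset Pt}
    (hTy : ∀ t : Bool × ℤ, H974.Pr (fun _ => (1 / 2 : ℝ)) S (Ty N ε t.1 t.2) ≤ p) :
    ∀ (T : List (Bool × ℤ)) (r : ℕ), H974.Pr (fun _ => (1 / 2 : ℝ)) S (ET N ε T r) ≤
      (√p)^r * ((1 - √p)⁻¹)^T.length := by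
  have hs0 : 0 < √p := Real.sqrt_pos.2 hp0
  have hs1 : √p < 1 := by
    rw [← Real.sqrt_one]; exact Real.sqrt_lt_sqrt hp0.le hp1
  have hi0 : 0 < (1 - √p)⁻¹ := inv_pos.2 (by linarith)
  intro T
  induction T with
  | nil =>
    intro r
    rw [List.length_nil, pow_zero, mul_one]
    rcases Nat.eq_zero_or_pos r with rfl | hr
    · rw [pow_zero]; exact H974.Pr_le_one half_ok S _
    · have h1 : H974.Pr (fun _ => (1 / 2 : ℝ)) S (ET N ε [] r) ≤
          H974.Pr (fun _ => (1 / 2 : ℝ)) S (fun _ => False) := by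
        apply H974.Pr_mono half_ok
        rintro F _ ⟨s, h0, f, _, _, h3⟩
        obtain ⟨i, hi⟩ := Finset.card_pos.1 (by omega : 0 < s.card)
        obtain ⟨t, ht, _⟩ := h3 i hi
        simp at ht
      have h2 : H974.Pr (fun _ => (1 / 2 : ℝ)) S (fun _ => False) = 0 := by
        have h3 := H974.Pr_not (p := fun _ => (1 / 2 : ℝ)) S (fun _ => True)
        simp only [not_true_eq_false] at h3
        rw [h3]
        unfold H974.Pr
        have h4 : H974.Ex (fun _ => (1 / 2 : ℝ)) S (fun _ => H974.ind True) = 1 := by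
          rw [H974.Ex_const, H974.ind_of trivial]
        rw [h4, sub_self]
      rw [h2] at h1
      exact h1.trans (by positivity)
  | cons t T ih =>
    intro r
    have h1 : H974.Pr (fun _ => (1 / 2 : ℝ)) S (ET N ε (t :: T) r) ≤
        ∑ j : Fin (r+1), H974.Pr (fun _ => (1 / 2 : ℝ)) S
          (H974.DisjOcc (DN j (Ty N ε t.1 t.2)) (ET N ε T (r - j))) := by
      refine le_trans ?_ (Pr_exists_le half_ok S _)
      exact H974.Pr_mono half_ok fun F _ h => ET_split h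
    refine h1.trans ?_
    have h2 : ∀ j : Fin (r+1), H974.Pr (fun _ => (1 / 2 : ℝ)) S
          (H974.DisjOcc (DN j (Ty N ε t.1 t.2)) (ET N ε T (r - j))) ≤
          (√p)^(j:ℕ) * ((√p)^r * ((1 - √p)⁻¹)^T.length) := by
      intro j
      have hj : (j:ℕ) ≤ r := by have := j.2; omega
      refine (H974.bk half_ok (DN_incr S j _) (ET_incr S N ε T (r - j))).trans ?_
      have h3 : H974.Pr (fun _ => (1 / 2 : ℝ)) S (DN j (Ty N ε t.1 t.2)) ≤ (√p)^(2*(j:ℕ)) := by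
        refine (DN_le half_ok (fun F G h _ => Ty_mono h) _).trans ?_
        rw [pow_mul, Real.sq_sqrt hp0.le]
        exact pow_le_pow_left₀ (H974.Pr_nonneg half_ok _ _) (hTy t) _
      calc _ ≤ (√p)^(2*(j:ℕ)) * ((√p)^(r - (j:ℕ)) * ((1 - √p)⁻¹)^T.length) :=
            mul_le_mul h3 (ih (r - j)) (H974.Pr_nonneg half_ok _ _) (by positivity)
        _ = (√p)^(j:ℕ) * (((√p)^(j:ℕ) * (√p)^(r - (j:ℕ))) * ((1 - √p)⁻¹)^T.length) := by
            rw [two_mul, pow_add]; ring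
        _ = _ := by rw [← pow_add, Nat.add_sub_cancel' hj]
    refine (Finset.sum_le_sum fun j _ => h2 j).trans ?_
    rw [← Finset.sum_mul, Fin.sum_univ_eq_sum_range (fun j => (√p)^j) (r+1), List.length_cons,
      pow_succ]
    have h3 : ∑ j ∈ Finset.range (r+1), (√p)^j ≤ (1 - √p)⁻¹ := by
      have h4 := geom_sum_eq (x := √p) hs1.ne (r+1)
      rw [h4, div_eq_mul_inv, show (√p)^(r+1) - 1 = -(1 - (√p)^(r+1)) by ring,
        show √p - 1 = -(1 - √p) by ring, inv_neg, neg_mul_neg]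
      have h5 : 1 - (√p)^(r+1) ≤ 1 := by linarith [pow_nonneg hs0.le (r+1)]
      nlinarith
    calc _ ≤ (1 - √p)⁻¹ * ((√p)^r * ((1 - √p)⁻¹)^T.length) :=
          mul_le_mul_of_nonneg_right h3 (by positivity)
      _ = _ := by ring

/-- many disjoint crossings -/
theorem many (hR : S_RSW) (hX : S_EXCL) : ∃ C ρ : ℝ, 1 ≤ C ∧ 0 < ρ ∧ ρ < 1 ∧
    ∀ (N m r : ℕ) (ε : ℤ), 1 ≤ N → prF (Tl N (m * N)) (fun F => ∃ f : Fin r → Finset Pt,
      (∀ i, f i ⊆ F) ∧ (∀ i j, i ≠ j → Disjoint (f i) (f j)) ∧ ∀ i, HC ε N (f i)) ≤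
      C^(m+1) * ρ^r := by
  obtain ⟨p, hp1, hp2, hp⟩ := one_block hR hX
  have hp0 : 0 < p := by linarith
  have hs0 : 0 < √p := Real.sqrt_pos.2 hp0
  have hs1 : √p < 1 := by
    rw [← Real.sqrt_one]; exact Real.sqrt_lt_sqrt hp0.le hp2
  have hi1 : 1 ≤ (1 - √p)⁻¹ := (one_le_inv₀ (by linarith)).2 (by linarith)
  refine ⟨((1 - √p)⁻¹)^2, √p, one_le_pow₀ hi1, hs0, hs1, ?_⟩
  intro N m r ε hN
  rw [prF_eq]
  set T : List (Bool × ℤ) := (List.range (m+1)).flatMap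
    (fun j : ℕ => [(true, (j:ℤ)), (false, (j:ℤ))])
    with hT
  have hlen : T.length = 2 * (m+1) := by
    rw [hT, List.length_flatMap]
    simp [mul_comm]
  have hmem : ∀ (b : Bool) (j : Fin (m+1)), (b, ((j:ℕ):ℤ)) ∈ T := by
    intro b j
    rw [hT, List.mem_flatMap]
    refine ⟨j, List.mem_range.2 j.2, ?_⟩
    cases b <;> simp
  have h1 : H974.Pr (fun _ => (1 / 2 : ℝ)) (Tl N (m * N)) (fun F => ∃ f : Fin r → Finset Pt,
      (∀ i, f i ⊆ F) ∧ (∀ i j, i ≠ j → Disjoint (f i) (f j)) ∧ ∀ i, HC ε N (f i)) ≤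
      H974.Pr (fun _ => (1 / 2 : ℝ)) (Tl N (m * N)) (ET N ε T r) := by
    apply H974.Pr_mono half_ok
    rintro F hF ⟨f, h1, h2, h3⟩
    refine ⟨Finset.range r, Finset.card_range r,
      fun i => if h : i < r then f ⟨i, h⟩ else ∅, ?_, ?_, ?_⟩
    · intro i hi
      rw [Finset.mem_range] at hi
      beta_reduce
      rw [dif_pos hi]; exact h1 _
    · intro i hi j hj hij
      rw [Finset.mem_range] at hi hj
      beta_reduce
      rw [dif_pos hi, dif_pos hj]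
      apply h2
      intro h
      exact hij (congrArg Fin.val h)
    · intro i hi
      rw [Finset.mem_range] at hi
      beta_reduce
      rw [dif_pos hi]
      obtain ⟨b, j, h⟩ := geom hN ((h1 ⟨i, hi⟩).trans hF) (h3 ⟨i, hi⟩)
      exact ⟨_, hmem b j, h⟩
  refine h1.trans ((ET_le hp0 hp2 (fun t => Ty_le (hp N · hN) ε t.1 t.2) T r).trans (le_of_eq ?_))
  rw [hlen, pow_mul]; ring

/-- the same on the cylinder -/
theorem dcp : ∃ C ρ : ℝ, 1 ≤ C ∧ 0 < ρ ∧ ρ < 1 ∧ ∀ (n M : ℕ) (u v ε : ℤ) (m r : ℕ), 1 ≤ n →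
    0 ≤ u → u ≤ v → v ≤ M → v - u ≤ m * (2 * n + 1) →
    S_RSW → S_EXCL → pr n M (fun c => DC (2 * n + 1) u v ε r (cfg n M c)) ≤ C^(m+1) * ρ^r := by
  by_cases hR : S_RSW
  swap
  · exact ⟨1, 1/2, le_rfl, by norm_num, by norm_num, fun _ _ _ _ _ _ _ _ _ _ _ _ h => absurd h hR⟩
  by_cases hX : S_EXCL
  swap
  · exact ⟨1, 1/2, le_rfl, by norm_num, by norm_num,
      fun _ _ _ _ _ _ _ _ _ _ _ _ _ h => absurd h hX⟩
  obtain ⟨C, ρ, hC, h0, h1, hB⟩ := many hR hX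
  refine ⟨C, ρ, hC, h0, h1, ?_⟩
  intro n M u v ε m r hn hu huv hvM hvm _ _
  set h : ℕ := (v - u).toNat with hh
  have hv : v = u + h := by omega
  set A : Finset Pt → Prop := fun F => ∃ f : Fin r → Finset Pt, (∀ i, f i ⊆ F) ∧
    (∀ i j, i ≠ j → Disjoint (f i) (f j)) ∧ ∀ i, HC (ε - u) (2 * n + 1) (f i) with hA
  have h1 : pr n M (fun c => DC (2 * n + 1) u v ε r (cfg n M c))
      ≤ pr n M (fun c => A (Pool.Agent.Y961.KW.FF n M u ε h c)) := by
    refine Pool.Agent.Y961.KW.pr_mono fun c hc => ?_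
    rw [hv] at hc
    exact Pool.Agent.Y961.KW.cross hc
  have h2 : pr n M (fun c => A (Pool.Agent.Y961.KW.FF n M u ε h c)) =
      prF (Tl (2 * n + 1) h) A := Pool.Agent.Y961.KW.pr_eq hu (by omega) A
  have h3 : prF (Tl (2 * n + 1) h) A ≤ prF (Tl (2 * n + 1) (m * (2 * n + 1))) A := by
    refine Pool.Agent.Y961.KW.prF_mono ?_ ?_
    · intro τ hτ
      rw [Pool.Agent.Y961.KW.mem_Tl] at hτ ⊢
      have h5 : (h : ℤ) ≤ (m * (2 * n + 1) : ℕ) := by
        push_cast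
        omega
      refine ⟨hτ.1, hτ.2.1, hτ.2.2.1, lt_of_lt_of_le hτ.2.2.2 h5⟩
    · rintro F F' hF ⟨f, f1, f2, f3⟩
      exact ⟨f, fun i => (f1 i).trans hF, f2, f3⟩
  exact h1.trans (h2.le.trans (h3.trans (hB (2 * n + 1) m r (ε - u) (by omega))))

end Pool.Agent.Zk36.UW
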