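import Pool.Agent.Zk36.UW.BK
import Pool.Agent.Zk36.UW.Abs
import Pool.Agent.Y994.KW.All

/-! The displacement of the interface is additive at the slabs crossed by one strand. -/

set_option autoImplicit false

namespace Pool.Agent.Zk36.UW

open Y994.KW Finset

/-- rows -/
abbrev Row (n : ℕ) : Type := Fin (2 * n + 1) → Bool

theorem Av_ofFn {β : Type} [Fintype β] (M : ℕ) (F : List β → ℝ) :
    Av M F = (∑ c : Fin M → β, F (List.ofFn c)) / (Fintype.card β : ℝ)^M := by
  induction M generalizing F with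
  | zero => simp [Av]
  | succ M ih =>
    rw [Av_succ]
    simp only [ih]
    rw [← Finset.sum_div, div_div, pow_succ]
    congr 1
    rw [← (Fin.consEquiv (fun _ : Fin (M+1) => β)).sum_comp, Fintype.sum_prod_type]
    refine Finset.sum_congr rfl fun b _ => Finset.sum_congr rfl fun c _ => ?_
    rw [List.ofFn_succ]
    rfl

theorem Av_Ex (n M : ℕ) (F : List (Row n) → ℝ) :
    Av M F = H906K.Ex n M (fun c => F (List.ofFn c)) := by
  rw [Av_ofFn]
  unfold H906K.Ex
  congr 1
  rw [Fintype.card_fun, Fintype.card_bool, Fintype.card_fin]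
  push_cast
  rw [← pow_mul]

/-- the configuration of the plane given by a list of rows -/
def cl (n : ℕ) (w : List (Row n)) : Cfg := cfg n w.length w.get

theorem cl_eq (n : ℕ) (w : List (Row n)) (j t : ℤ) (h0 : 0 ≤ t) (h1 : t < w.length) :
    cl n w j t = w.get ⟨t.toNat, by omega⟩ (H906K.jx (2 * n) j) := by
  unfold cl cfg
  rw [dif_pos ⟨h0, by exact_mod_cast h1⟩]

theorem cl_per (n : ℕ) (w : List (Row n)) : Per n (cl n w) := Pool.Agent.Y941.KW.per_cfg n _ _

theorem cl_right (n : ℕ) (u v : List (Row n)) (j t : ℤ) (h0 : 0 ≤ t) (h1 : t < v.length) :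
    cl n (u ++ v) j (t + u.length) = cl n v j t := by
  rw [cl_eq n v j t h0 h1, cl_eq n (u ++ v) j _ (by omega) (by rw [List.length_append]; push_cast; omega)]
  have h2 : (t + u.length).toNat = u.length + t.toNat := by omega
  simp only [List.get_eq_getElem, h2]
  rw [List.getElem_append_right (by omega)]
  have h3 : ∀ (i k : ℕ) (hi : i < v.length) (hk : k < v.length), i = k → v[i] = v[k] := by
    intro i k hi hk h
    subst h
    rfl
  exact congrFun (h3 _ _ _ _ (by omega)) _

theorem cl_left (n : ℕ) (u v : List (Row n)) (j t : ℤ) (h0 : 0 ≤ t) (h1 : t < u.length) :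
    cl n (u ++ v) j t = cl n u j t := by
  rw [cl_eq n u j t h0 h1, cl_eq n (u ++ v) j _ (by omega) (by rw [List.length_append]; push_cast; omega)]
  simp only [List.get_eq_getElem]
  rw [List.getElem_append_left (by omega)]

/-- displacement over a word of rows, in units of the circumference -/
noncomputable def XL (n : ℕ) (w : List (Row n)) : ℝ := (dsp n 0 w.length (cl n w) : ℝ) / (2 * n + 1)

theorem XL_ofFn (n M : ℕ) (c : Fin M → Row n) (hn : 1 ≤ n) :
    XL n (List.ofFn c) = (H906K.Xd n M c : ℝ) / (2 * n + 1) := by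
  unfold XL
  congr 1
  rw [All.XD n M c hn]
  unfold X
  have h := All.LOC n 0 M 0 (cfg n M c) (cl n (List.ofFn c)) hn (by positivity) (fun j t h0 h1 => by
    rw [add_zero, cl_eq n _ j t h0 (by rw [List.length_ofFn]; exact h1)]
    unfold cfg
    rw [dif_pos ⟨h0, h1⟩]
    simp)
  rw [add_zero, add_zero] at h
  rw [List.length_ofFn, h]

open Classical in
/-- indicator of the good blocks -/
noncomputable def gd (n : ℕ) (g : List (Row n)) : ℝ :=
  if T1 n (cl n g) 0 (2 * n + 1) then 1 else 0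

theorem XL_split (n : ℕ) (hn : 1 ≤ n) (u g v : List (Row n)) (hg : g.length = 2 * n + 1)
    (h1 : gd n g = 1) : XL n (u ++ (g ++ v)) = XL n (u ++ g) + XL n (g ++ v) - XL n g := by
  have hT : T1 n (cl n g) 0 (2 * n + 1) := by
    by_contra hc
    unfold gd at h1
    rw [if_neg hc] at h1
    norm_num at h1
  set w := u ++ (g ++ v) with hw
  set σ := cl n w with hσ
  set s : ℤ := ((u.length : ℕ) : ℤ) with hs
  have hgl : (g.length : ℤ) = 2 * n + 1 := by rw [hg]; push_cast; ring
  have hwl : (w.length : ℤ) = s + (2 * n + 1) + v.length := by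
    rw [hw, List.length_append, List.length_append]; push_cast; rw [hgl]; ring
  have hp : Per n σ := cl_per n w
  have hT' : T1 n σ s (s + (2 * n + 1)) := by
    have h := t_T1LOC n 0 (2 * n + 1) s (cl n g) σ (fun j t h0 h1' => by
      rw [hσ, hw, hs, cl_right n u (g ++ v) j t h0 (by
        rw [List.length_append]; push_cast; rw [hgl]; omega)]
      exact cl_left n g v j t h0 (by rw [hgl]; exact h1')) hT
    rw [zero_add, add_comm (2 * (n:ℤ) + 1)] at h
    exact h
  have e1 : dsp n 0 (u ++ g).length (cl n (u ++ g)) = dsp n 0 (s + (2 * n + 1)) σ := by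
    have h := All.LOC n 0 (u ++ g).length 0 (cl n (u ++ g)) σ hn (by positivity) (fun j t h0 h1' => by
      rw [add_zero, hσ, hw, ← List.append_assoc]
      exact cl_left n (u ++ g) v j t h0 h1')
    rw [add_zero, add_zero] at h
    have h2 : ((u ++ g).length : ℤ) = s + (2 * n + 1) := by
      rw [List.length_append]; push_cast; rw [hgl]
    rw [h2] at h ⊢
    exact h.symm
  have e2 : dsp n 0 (g ++ v).length (cl n (g ++ v)) = dsp n s w.length σ := by
    have h := All.LOC n 0 (g ++ v).length s (cl n (g ++ v)) σ hn (by positivity)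
      (fun j t h0 h1' => by
        rw [hσ, hw, hs]
        exact cl_right n u (g ++ v) j t h0 h1')
    rw [zero_add] at h
    have h2 : ((g ++ v).length : ℤ) + s = w.length := by
      rw [hwl, List.length_append]; push_cast; rw [hgl]; ring
    rw [h2] at h
    exact h.symm
  have e3 : dsp n 0 g.length (cl n g) = dsp n s (s + (2 * n + 1)) σ := by
    have h := All.LOC n 0 g.length s (cl n g) σ hn (by positivity) (fun j t h0 h1' => by
      rw [hσ, hw, hs, cl_right n u (g ++ v) j t h0 (by
        rw [List.length_append]; push_cast; omega)]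
      exact cl_left n g v j t h0 h1')
    rw [zero_add, hgl, add_comm] at h
    rw [hgl]
    exact h.symm
  obtain ⟨τh, ha⟩ := All.HIT n 0 (s + (2 * n + 1)) σ hn hp (by omega)
  obtain ⟨τb, hb⟩ := All.HIT n 0 w.length σ hn hp (by omega)
  obtain ⟨ηh, ha'⟩ := All.HIT n s (s + (2 * n + 1)) σ hn hp (by omega)
  obtain ⟨ηb, hb'⟩ := All.HIT n s w.length σ hn hp (by omega)
  have key := Pool.Agent.Y290.KW.tail All.INJ hn hp (by omega : (0:ℤ) ≤ s)
    (by omega : s < s + (2 * n + 1)) (by omega : s + (2 * n + 1) ≤ w.length) hT' ha hb ha' hb'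
  unfold XL
  rw [e1, e2, e3]
  have key' : ((dsp n 0 w.length σ : ℤ) : ℝ) = dsp n 0 (s + (2 * n + 1)) σ + dsp n s w.length σ -
      dsp n s (s + (2 * n + 1)) σ := by
    have : dsp n 0 w.length σ = dsp n 0 (s + (2 * n + 1)) σ + dsp n s w.length σ -
      dsp n s (s + (2 * n + 1)) σ := by linarith
    exact_mod_cast this
  rw [key']
  ring

/-- long displacements over a word -/
theorem XL_dc (n M r : ℕ) (hn : 1 ≤ n) (c : Fin M → Row n)
    (h : 2 * ((r:ℝ) + 2) ≤ |XL n (List.ofFn c)|) : DC (2 * n + 1) 0 M 1 r (cfg n M c) := by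
  have hp : Per n (cfg n M c) := Pool.Agent.Y941.KW.per_cfg n _ _
  obtain ⟨τ, hh⟩ := All.HIT n 0 M (cfg n M c) hn hp (by positivity)
  have h8 : Hit n 0 0 (cfg n M c) 0 0 := by
    refine ⟨?_, fun k hk => absurd hk (Nat.not_lt_zero k)⟩
    rw [Pool.Agent.Y290.KW.orb_zero, add_zero]
  have h1 : 2 * (2 * (n:ℤ) + 1) * (r + 2) ≤ |dsp n 0 M (cfg n M c) - 0| := by
    rw [sub_zero]
    rw [XL_ofFn n M c hn, All.XD n M c hn, abs_div, le_div_iff₀ (by positivity)] at h
    have h2 : |(2 * (n:ℝ) + 1)| = 2 * n + 1 := abs_of_pos (by positivity)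
    rw [h2] at h
    unfold X at h
    have h3 : (2 * (2 * (n:ℝ) + 1) * (r + 2)) ≤ |((dsp n 0 M (cfg n M c) : ℤ) : ℝ)| := by linarith
    exact_mod_cast h3
  exact Pool.Agent.Y290.KW.brk All.VAL All.INJ All.TRAVG hn hp le_rfl le_rfl (by positivity)
    (Or.inl rfl) h8 hh h1

theorem exp_moments : ∃ θ B : ℝ, 0 < θ ∧ 1 ≤ B ∧ ∀ n : ℕ, 1 ≤ n → ∀ L k : ℕ, 1 ≤ k →
    L ≤ k * (2 * n + 1) → Av L (fun w => Real.exp (θ * |XL n w|)) ≤ B^k := by
  obtain ⟨C, ρ, hC, hρ0, hρ1, hD⟩ := dcp
  -- choose θ with exp (2 θ) ρ < 1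
  set θ : ℝ := -Real.log ρ / 4 with hθ
  have hlog : Real.log ρ < 0 := Real.log_neg hρ0 hρ1
  have hθ0 : 0 < θ := by rw [hθ]; linarith
  set κ := Real.exp (2 * θ) * ρ with hκ
  have hκ0 : 0 < κ := by positivity
  have hκ1 : κ < 1 := by
    rw [hκ, hθ, ← Real.exp_log hρ0, ← Real.exp_add, Real.log_exp, Real.exp_lt_one_iff]
    linarith
  set A := Real.exp (4 * θ) with hA
  have hA1 : 1 ≤ A := Real.one_le_exp (by positivity)
  set D := Real.exp (6 * θ) / (1 - κ) with hDd
  have h1κ : 0 < 1 - κ := by linarith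
  have hD1 : 1 ≤ D := by
    rw [hDd, le_div_iff₀ h1κ, one_mul]
    have := Real.one_le_exp (show 0 ≤ 6 * θ by positivity)
    linarith
  refine ⟨θ, A + C^2 * D, hθ0, by nlinarith [sq_nonneg C, one_le_pow₀ hC (n := 2)], ?_⟩
  intro n hn L k hk hL
  rw [Av_Ex]
  -- pointwise bound
  obtain ⟨R, hR⟩ : ∃ R : ℕ, ∀ c : Fin L → Row n, |XL n (List.ofFn c)| ≤ R := by
    refine ⟨⌈∑ c : Fin L → Row n, |XL n (List.ofFn c)|⌉₊, fun c => ?_⟩
    refine le_trans ?_ (Nat.le_ceil _)
    exact Finset.single_le_sum (f := fun c : Fin L → Row n => |XL n (List.ofFn c)|)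
      (fun _ _ => abs_nonneg _) (Finset.mem_univ c)
  classical
  have hpt : ∀ c : Fin L → Row n, Real.exp (θ * |XL n (List.ofFn c)|) ≤
      A + ∑ r ∈ range R, Real.exp (2 * θ * (r + 3)) *
        (if DC (2 * n + 1) 0 L 1 r (cfg n L c) then 1 else 0) := by
    intro c
    set y := |XL n (List.ofFn c)| with hy
    have hy0 : 0 ≤ y := abs_nonneg _
    have hnn : ∀ r ∈ range R, 0 ≤ Real.exp (2 * θ * (r + 3)) *
        (if DC (2 * n + 1) 0 L 1 r (cfg n L c) then (1:ℝ) else 0) := fun r _ => by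
      split_ifs <;> positivity
    rcases lt_or_ge y 4 with h4 | h4
    · have : Real.exp (θ * y) ≤ A := Real.exp_le_exp.2 (by nlinarith)
      linarith [Finset.sum_nonneg hnn]
    · set m := ⌊y / 2⌋₊ with hm
      have hm1 : (m:ℝ) ≤ y / 2 := Nat.floor_le (by positivity)
      have hm2 : y / 2 < m + 1 := Nat.lt_floor_add_one _
      have hm3 : 2 ≤ m := by
        have : (1:ℝ) < m := by linarith
        have h5 : 1 < m := by exact_mod_cast this
        omega
      obtain ⟨r, hr⟩ := Nat.exists_eq_add_of_le' hm3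
      have hr' : (m:ℝ) = r + 2 := by rw [hr]; push_cast; ring
      have hrR : r ∈ range R := by
        rw [Finset.mem_range]
        have h5 : (r:ℝ) < R := by linarith [hR c]
        exact_mod_cast h5
      have hdc : DC (2 * n + 1) 0 L 1 r (cfg n L c) := XL_dc n L r hn c (by rw [← hy]; linarith)
      have h6 := Finset.single_le_sum hnn hrR
      rw [if_pos hdc, mul_one] at h6
      have h7 : Real.exp (θ * y) ≤ Real.exp (2 * θ * (r + 3)) := Real.exp_le_exp.2 (by nlinarith)
      linarith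
  have h1 : H906K.Ex n L (fun c => Real.exp (θ * |XL n (List.ofFn c)|)) ≤
      A + ∑ r ∈ range R, Real.exp (2 * θ * (r + 3)) *
        pr n L (fun c => DC (2 * n + 1) 0 L 1 r (cfg n L c)) := by
    have e1 : ∀ F : (Fin L → Row n) → ℝ, H906K.Ex n L F = Av L (fun w =>
        if h : w.length = L then F (fun i => w.get (i.cast h.symm)) else 0) := by
      intro F
      rw [Av_Ex]
      congr 1
      funext c
      rw [dif_pos (List.length_ofFn)]
      congr 1
      funext i
      simp
    have e2 : H906K.Ex n L (fun c => A + ∑ r ∈ range R, Real.exp (2 * θ * (r + 3)) *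
        (if DC (2 * n + 1) 0 L 1 r (cfg n L c) then 1 else 0)) =
        A + ∑ r ∈ range R, Real.exp (2 * θ * (r + 3)) *
        pr n L (fun c => DC (2 * n + 1) 0 L 1 r (cfg n L c)) := by
      unfold pr H906K.Ex
      rw [Finset.sum_add_distrib, add_div, Finset.sum_comm]
      congr 1
      · rw [Finset.sum_const, Finset.card_univ, nsmul_eq_mul, Pool.Agent.Y941.KW.card_cfg]
        field_simp
      · have e4 : ∀ (f : (Fin L → Row n) → ℝ) (a b : ℝ),
            (∑ c, a * f c) / b = a * ((∑ c, f c) / b) := fun f a b => by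
          rw [← Finset.mul_sum, mul_div_assoc]
        rw [Finset.sum_div]
        exact Finset.sum_congr rfl fun r _ => e4 _ _ _
    rw [← e2]
    unfold H906K.Ex
    apply div_le_div_of_nonneg_right _ (by positivity)
    exact Finset.sum_le_sum fun c _ => hpt c
  refine h1.trans ?_
  have h2 : ∀ r ∈ range R, Real.exp (2 * θ * (r + 3)) *
        pr n L (fun c => DC (2 * n + 1) 0 L 1 r (cfg n L c)) ≤
        (C^(k+1) * Real.exp (6 * θ)) * κ^r := by
    intro r _
    have h3 := hD n L 0 L 1 k r hn le_rfl (by positivity) le_rfl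
      (by rw [sub_zero]; exact_mod_cast hL) All.RSW All.EXCL
    calc _ ≤ Real.exp (2 * θ * (r + 3)) * (C^(k+1) * ρ^r) :=
          mul_le_mul_of_nonneg_left h3 (Real.exp_pos _).le
      _ = _ := by
          rw [hκ, mul_pow, ← Real.exp_nat_mul]
          have : Real.exp (2 * θ * (r + 3)) = Real.exp (6 * θ) * Real.exp (r * (2 * θ)) := by
            rw [← Real.exp_add]; congr 1; ring
          rw [this]; ring
  have h3 : ∑ r ∈ range R, κ^r ≤ (1 - κ)⁻¹ := by
    have h4 := geom_sum_eq (x := κ) hκ1.ne R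
    rw [h4, div_eq_mul_inv, show κ^R - 1 = -(1 - κ^R) by ring,
      show κ - 1 = -(1 - κ) by ring, inv_neg, neg_mul_neg]
    have h5 : 1 - κ^R ≤ 1 := by linarith [pow_nonneg hκ0.le R]
    have h6 : 0 < (1 - κ)⁻¹ := inv_pos.2 h1κ
    nlinarith
  have hC0 : 0 < C := by linarith
  calc A + ∑ r ∈ range R, Real.exp (2 * θ * (r + 3)) *
        pr n L (fun c => DC (2 * n + 1) 0 L 1 r (cfg n L c))
      ≤ A + (C^(k+1) * Real.exp (6 * θ)) * (1 - κ)⁻¹ := by
        refine add_le_add le_rfl ?_
        refine (Finset.sum_le_sum h2).trans ?_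
        rw [← Finset.mul_sum]
        exact mul_le_mul_of_nonneg_left h3 (by positivity)
    _ = A + C^(k+1) * D := by rw [hDd, div_eq_mul_inv]; ring
    _ ≤ A^k + (C^2 * D)^k := by
        apply add_le_add
        · calc A = A^1 := (pow_one A).symm
            _ ≤ A^k := pow_le_pow_right₀ hA1 hk
        · rw [mul_pow, ← pow_mul]
          apply mul_le_mul (pow_le_pow_right₀ hC (by omega)) _ (by positivity) (by positivity)
          calc D = D^1 := (pow_one D).symm
            _ ≤ D^k := pow_le_pow_right₀ hD1 hk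
    _ ≤ (A + C^2 * D)^k := by
        have h5 : ∀ (x y : ℝ) (k : ℕ), 0 ≤ x → 0 ≤ y → 1 ≤ k → x^k + y^k ≤ (x + y)^k := by
          intro x y k hx hy hk
          induction k, hk using Nat.le_induction with
          | base => simp
          | succ k hk ih =>
            have h6 : 0 ≤ x^k := pow_nonneg hx k
            have h7 : 0 ≤ y^k := pow_nonneg hy k
            calc x^(k+1) + y^(k+1) = x^k * x + y^k * y := by ring
              _ ≤ (x^k + y^k) * (x + y) := by nlinarith [mul_nonneg h6 hy, mul_nonneg h7 hx]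
              _ ≤ (x + y)^k * (x + y) := mul_le_mul_of_nonneg_right ih (by positivity)
              _ = _ := by ring
        exact h5 A (C^2 * D) k (by positivity) (by positivity) hk

theorem hyp : ∃ c0 θ B : ℝ, 0 < c0 ∧ c0 ≤ 1 ∧ 0 < θ ∧ 1 ≤ B ∧ ∀ n : ℕ, 1 ≤ n →
    Hyp (2 * n + 1) (gd n) (XL n) c0 θ B := by
  obtain ⟨θ, B, hθ, hB, hmom⟩ := exp_moments
  obtain ⟨c0, hc0, hc⟩ := All.T1P
  refine ⟨c0, θ, B, hc0, (hc 1 le_rfl).trans (Pool.Agent.Y941.KW.pr_le_one _), hθ, hB,
    fun n hn => ⟨?_, ?_, ?_, ?_⟩⟩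
  · intro g
    unfold gd
    split_ifs
    · exact Or.inr rfl
    · exact Or.inl rfl
  · intro u g v hg h1
    exact XL_split n hn u g v hg h1
  · refine (hc n hn).trans (le_of_eq ?_)
    rw [Av_Ex]
    unfold pr
    congr 1
    funext c
    unfold gd
    have h1 : T1 n (cl n (List.ofFn c)) 0 (2 * n + 1) ↔ T1 n (cfg n (2*n+1) c) 0 (2 * n + 1) := by
      have e : ∀ j t : ℤ, 0 ≤ t → t < 2 * n + 1 → cl n (List.ofFn c) j t = cfg n (2*n+1) c j t := by
        intro j t h0 h1
        rw [cl_eq n _ j t h0 (by rw [List.length_ofFn]; push_cast; exact h1)]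
        unfold cfg
        rw [dif_pos ⟨h0, by push_cast; exact h1⟩]
        simp
      constructor
      · intro h
        have h2 := t_T1LOC n 0 (2 * n + 1) 0 _ (cfg n (2*n+1) c) (fun j t h0 h1 => by
          rw [add_zero]; exact (e j t h0 h1).symm) h
        rwa [add_zero, add_zero] at h2
      · intro h
        have h2 := t_T1LOC n 0 (2 * n + 1) 0 _ (cl n (List.ofFn c)) (fun j t h0 h1 => by
          rw [add_zero]; exact e j t h0 h1) h
        rwa [add_zero, add_zero] at h2
    by_cases h : T1 n (cfg n (2*n+1) c) 0 (2 * n + 1)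
    · rw [if_pos (h1.2 h), if_pos h]
    · rw [if_neg (fun h' => h (h1.1 h')), if_neg h]
  · exact fun L k hk hL => hmom n hn L k hk hL

end Pool.Agent.Zk36.UW
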