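import Pool.Agent.Zk36.UW.Av

/-! Decomposition of a word at its first good block. -/

set_option autoImplicit false

namespace Pool.Agent.Zk36.UW

open Finset

set_option linter.unusedSectionVars false

variable {β : Type} [Fintype β]

/-- indicator: the first `k` blocks of length `N` are not good -/
noncomputable def bi (N : ℕ) (gi : List β → ℝ) : ℕ → List β → ℝ
  | 0, _ => 1
  | k + 1, w => (1 - gi (w.take N)) * bi N gi k (w.drop N)

theorem bi_zero (N : ℕ) (gi : List β → ℝ) (w : List β) : bi N gi 0 w = 1 := rfl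

theorem bi_succ (N : ℕ) (gi : List β → ℝ) (k : ℕ) (w : List β) :
    bi N gi (k+1) w = (1 - gi (w.take N)) * bi N gi k (w.drop N) := rfl

theorem bi_append {N : ℕ} (gi : List β → ℝ) (k : ℕ) {g : List β} (hg : g.length = N)
    (d : List β) : bi N gi (k+1) (g ++ d) = (1 - gi g) * bi N gi k d := by
  rw [bi_succ, List.take_left' hg, List.drop_left' hg]

theorem bi01 {N : ℕ} {gi : List β → ℝ} (h : ∀ g, gi g = 0 ∨ gi g = 1) :
    ∀ (k : ℕ) (w : List β), bi N gi k w = 0 ∨ bi N gi k w = 1 := by
  intro k
  induction k with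
  | zero => intro w; exact Or.inr rfl
  | succ k ih =>
    intro w
    rw [bi_succ]
    rcases h (w.take N) with h1 | h1 <;> rcases ih (w.drop N) with h2 | h2 <;>
      rw [h1, h2] <;> simp

theorem bi_nonneg {N : ℕ} {gi : List β → ℝ} (h : ∀ g, gi g = 0 ∨ gi g = 1) (k : ℕ)
    (w : List β) : 0 ≤ bi N gi k w := by
  rcases bi01 h k w with h1 | h1 <;> rw [h1] <;> norm_num

theorem bi_le {N : ℕ} {gi : List β → ℝ} (h : ∀ g, gi g = 0 ∨ gi g = 1) (k : ℕ)
    (w : List β) : bi N gi k w ≤ 1 := by
  rcases bi01 h k w with h1 | h1 <;> rw [h1] <;> norm_num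

theorem bi_sq {N : ℕ} {gi : List β → ℝ} (h : ∀ g, gi g = 0 ∨ gi g = 1) (k : ℕ)
    (w : List β) : bi N gi k w ^ 2 = bi N gi k w := by
  rcases bi01 h k w with h1 | h1 <;> rw [h1] <;> norm_num

/-- **decomposition at the first good block** -/
theorem dec (N : ℕ) (gi : List β → ℝ) (r : ℕ) : ∀ (k : ℕ) (F : List β → ℝ),
    Av (k*N+r) F = ∑ s ∈ range k, Av (s*N) (fun d => bi N gi s d *
      Av N (fun g => gi g * Av ((k-1-s)*N+r) (fun w => F (d ++ (g ++ w))))) +
      Av (k*N+r) (fun w => bi N gi k w * F w) := by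
  intro k
  induction k with
  | zero =>
    intro F
    rw [Finset.range_zero, Finset.sum_empty, zero_add]
    exact Av_congr fun w _ => by rw [bi_zero, one_mul]
  | succ k ih =>
    intro F
    have e0 : (k+1)*N + r = N + (k*N+r) := by ring
    have h1 : Av ((k+1)*N+r) F = Av N (fun g => gi g * Av (k*N+r) (fun w => F (g ++ w))) +
        Av N (fun g => (1 - gi g) * Av (k*N+r) (fun w => F (g ++ w))) := by
      rw [e0, Av_append, ← Av_add]
      exact Av_congr fun g _ => by ring
    have h2 : ∀ g : List β, Av (k*N+r) (fun w => F (g ++ w)) = ∑ s ∈ range k,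
        Av (s*N) (fun d => bi N gi s d * Av N (fun g' => gi g' * Av ((k-1-s)*N+r)
          (fun w => F (g ++ (d ++ (g' ++ w)))))) +
        Av (k*N+r) (fun w => bi N gi k w * F (g ++ w)) := fun g => ih (fun w => F (g ++ w))
    have h3 : Av N (fun g => (1 - gi g) * Av (k*N+r) (fun w => F (g ++ w))) =
        ∑ s ∈ range k, Av N (fun g => (1 - gi g) * Av (s*N) (fun d => bi N gi s d *
          Av N (fun g' => gi g' * Av ((k-1-s)*N+r) (fun w => F (g ++ (d ++ (g' ++ w))))))) +
        Av N (fun g => (1 - gi g) * Av (k*N+r) (fun w => bi N gi k w * F (g ++ w))) := by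
      rw [← Av_sum, ← Av_add]
      exact Av_congr fun g _ => by rw [h2 g, mul_add, Finset.mul_sum]
    rw [h1, h3, Finset.sum_range_succ', e0]
    have t0 : Av (0*N) (fun d => bi N gi 0 d * Av N (fun g => gi g *
        Av ((k+1-1-0)*N+r) (fun w => F (d ++ (g ++ w))))) =
        Av N (fun g => gi g * Av (k*N+r) (fun w => F (g ++ w))) := by
      rw [zero_mul]
      change bi N gi 0 [] * _ = _
      rw [bi_zero, one_mul]
      simp only [Nat.add_sub_cancel, Nat.sub_zero, List.nil_append]
    have t1 : ∀ s, Av ((s+1)*N) (fun d => bi N gi (s+1) d * Av N (fun g => gi g *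
        Av ((k+1-1-(s+1))*N+r) (fun w => F (d ++ (g ++ w))))) =
        Av N (fun g => (1 - gi g) * Av (s*N) (fun d => bi N gi s d *
          Av N (fun g' => gi g' * Av ((k-1-s)*N+r) (fun w => F (g ++ (d ++ (g' ++ w))))))) := by
      intro s
      rw [show (s+1)*N = N + s*N by ring, Av_append, show k+1-1-(s+1) = k-1-s by omega]
      refine Av_congr fun g hg => ?_
      rw [← Av_mul]
      refine Av_congr fun d _ => ?_
      rw [bi_append gi s hg, mul_assoc]
      simp only [List.append_assoc]
    have t2 : Av (N + (k*N+r)) (fun w => bi N gi (k+1) w * F w) =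
        Av N (fun g => (1 - gi g) * Av (k*N+r) (fun w => bi N gi k w * F (g ++ w))) := by
      rw [Av_append]
      refine Av_congr fun g hg => ?_
      rw [← Av_mul]
      refine Av_congr fun d _ => ?_
      rw [bi_append gi k hg, mul_assoc]
    rw [t0, t2]
    simp only [t1]
    ring

variable [Nonempty β]

theorem Av_bi (N : ℕ) (gi : List β → ℝ) (r : ℕ) (k : ℕ) :
    Av (k*N+r) (bi N gi k) = (1 - Av N gi)^k := by
  induction k with
  | zero =>
    rw [pow_zero]
    exact Av_const _ 1
  | succ k ih =>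
    rw [show (k+1)*N + r = N + (k*N+r) by ring, Av_append, pow_succ, ← ih]
    have h1 : Av N (fun u => Av (k*N+r) (fun v => bi N gi (k+1) (u ++ v))) =
        Av N (fun u => (1 - gi u) * Av (k*N+r) (bi N gi k)) := by
      refine Av_congr fun g hg => ?_
      rw [← Av_mul]
      exact Av_congr fun d _ => bi_append gi k hg d
    rw [h1, Av_mul_right, Av_sub, Av_const, mul_comm]

end Pool.Agent.Zk36.UW
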