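import Mathlib

/-! Deviation probabilities from bounds for the exponential moments. -/

set_option autoImplicit false

namespace Pool.Agent.Zk36.UW

open MeasureTheory

/-- the exponential moments are those of a centred normal law with variance `6 h`, up to
`exp (± D)` -/
structure Lap (μ : Measure ℝ) (t0 h D : ℝ) : Prop where
  int : ∀ t, |t| ≤ t0 → Integrable (fun x => Real.exp (t * x)) μ
  up : ∀ t, |t| ≤ t0 → ∫ x, Real.exp (t * x) ∂μ ≤ Real.exp (3 * t ^ 2 * h + D)
  lo : ∀ t, |t| ≤ t0 → Real.exp (3 * t ^ 2 * h - D) ≤ ∫ x, Real.exp (t * x) ∂μ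

theorem real_eq (μ : Measure ℝ) [IsProbabilityMeasure μ] (b : ℝ) :
    μ.real (Set.Ici b) = ∫ x, (Set.Ici b).indicator (fun _ => (1:ℝ)) x ∂μ := by
  rw [integral_indicator measurableSet_Ici]
  simp

theorem int_ind (μ : Measure ℝ) [IsProbabilityMeasure μ] (b : ℝ) :
    Integrable ((Set.Ici b).indicator (fun _ => (1:ℝ))) μ :=
  (integrable_const _).indicator measurableSet_Ici

theorem dev_up {μ : Measure ℝ} [IsProbabilityMeasure μ] {t0 h D : ℝ} (H : Lap μ t0 h D) {a : ℝ}
    (ha : 0 ≤ a) (hat : a / 6 ≤ t0) :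
    μ.real (Set.Ici (a * h)) ≤ Real.exp (-(a ^ 2 / 12) * h + D) := by
  have ht : |a / 6| ≤ t0 := by rwa [abs_of_nonneg (by positivity)]
  have h1 : μ.real (Set.Ici (a * h)) ≤ Real.exp (-(a / 6 * (a * h))) *
      ∫ x, Real.exp (a / 6 * x) ∂μ := by
    rw [real_eq, ← integral_const_mul]
    apply integral_mono (int_ind μ _) ((H.int _ ht).const_mul _)
    intro x
    simp only [Set.indicator, Set.mem_Ici]
    split_ifs with hx
    · rw [← Real.exp_add]
      apply Real.one_le_exp
      have : a / 6 * (a * h) ≤ a / 6 * x := mul_le_mul_of_nonneg_left hx (by positivity)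
      linarith
    · positivity
  refine h1.trans ((mul_le_mul_of_nonneg_left (H.up _ ht) (Real.exp_pos _).le).trans (le_of_eq ?_))
  rw [← Real.exp_add]
  congr 1
  ring

theorem dev_lo {μ : Measure ℝ} [IsProbabilityMeasure μ] {t0 h D : ℝ} (H : Lap μ t0 h D)
    (hh : 0 ≤ h) {a δ : ℝ} (ha : 0 ≤ a) (hδ : 0 < δ) (hat : a / 6 + 2 * δ ≤ t0)
    (hbig : 2 * D + Real.log 4 ≤ 3 * δ ^ 2 * h) :
    Real.exp (-(a ^ 2 / 12) * h - (2 * a * δ + 9 * δ ^ 2) * h - D) / 2 ≤
      μ.real (Set.Ici (a * h)) := by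
  set s := a / 6 + δ with hs
  set u := (a + 12 * δ) * h with hu
  set v := a * h with hv
  have e1 : |s| ≤ t0 := by rw [abs_of_nonneg (by positivity)]; linarith
  have e2 : |s - δ| ≤ t0 := by
    rw [show s - δ = a / 6 by rw [hs]; ring, abs_of_nonneg (by positivity)]; linarith
  have e3 : |s + δ| ≤ t0 := by rw [abs_of_nonneg (by positivity)]; linarith
  have h1 : Real.exp (-(s * u)) * (∫ x, Real.exp (s * x) ∂μ -
      Real.exp (δ * v) * ∫ x, Real.exp ((s - δ) * x) ∂μ -
      Real.exp (-(δ * u)) * ∫ x, Real.exp ((s + δ) * x) ∂μ) ≤ μ.real (Set.Ici v) := by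
    have i1 := H.int _ e1
    have i2 := (H.int _ e2).const_mul (Real.exp (δ * v))
    have i3 := (H.int _ e3).const_mul (Real.exp (-(δ * u)))
    have j2 : ∫ x, (Real.exp (s * x) - Real.exp (δ * v) * Real.exp ((s - δ) * x) -
        Real.exp (-(δ * u)) * Real.exp ((s + δ) * x)) ∂μ = ∫ x, Real.exp (s * x) ∂μ -
        Real.exp (δ * v) * ∫ x, Real.exp ((s - δ) * x) ∂μ -
        Real.exp (-(δ * u)) * ∫ x, Real.exp ((s + δ) * x) ∂μ := by
      rw [← integral_const_mul (Real.exp (δ * v)), ← integral_const_mul (Real.exp (-(δ * u))),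
        ← integral_sub i1 i2]
      exact integral_sub (i1.sub i2) i3
    rw [real_eq, ← j2, ← integral_const_mul]
    apply integral_mono (((i1.sub i2).sub i3).const_mul _) (int_ind μ _)
    intro x
    simp only [Set.indicator, Set.mem_Ici, Pi.sub_apply]
    have f1 : Real.exp (δ * v) * Real.exp ((s - δ) * x) =
        Real.exp (s * x) * Real.exp (δ * (v - x)) := by
      rw [← Real.exp_add, ← Real.exp_add]; congr 1; ring
    have f2 : Real.exp (-(δ * u)) * Real.exp ((s + δ) * x) =
        Real.exp (s * x) * Real.exp (δ * (x - u)) := by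
      rw [← Real.exp_add, ← Real.exp_add]; congr 1; ring
    have hp := Real.exp_pos (s * x)
    rw [f1, f2]
    have hx1 : Real.exp (s * x) - Real.exp (s * x) * Real.exp (δ * (v - x)) -
        Real.exp (s * x) * Real.exp (δ * (x - u)) =
        Real.exp (s * x) * (1 - Real.exp (δ * (v - x)) - Real.exp (δ * (x - u))) := by ring
    rw [hx1]
    split_ifs with hx
    · rcases le_or_gt x u with hxu | hxu
      · have g1 : 1 - Real.exp (δ * (v - x)) - Real.exp (δ * (x - u)) ≤ 1 := by
          have := Real.exp_pos (δ * (v - x))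
          have := Real.exp_pos (δ * (x - u))
          linarith
        have g2 : Real.exp (-(s * u)) * Real.exp (s * x) ≤ 1 := by
          rw [← Real.exp_add]
          apply Real.exp_le_one_iff.2
          have hs0 : 0 ≤ s := by positivity
          nlinarith
        calc Real.exp (-(s * u)) * (Real.exp (s * x) *
              (1 - Real.exp (δ * (v - x)) - Real.exp (δ * (x - u))))
            = (Real.exp (-(s * u)) * Real.exp (s * x)) *
              (1 - Real.exp (δ * (v - x)) - Real.exp (δ * (x - u))) := by ring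
          _ ≤ (Real.exp (-(s * u)) * Real.exp (s * x)) * 1 :=
              mul_le_mul_of_nonneg_left g1 (by positivity)
          _ ≤ 1 := by rw [mul_one]; exact g2
      · have g1 : 1 ≤ Real.exp (δ * (x - u)) := Real.one_le_exp (by nlinarith)
        have g2 := Real.exp_pos (δ * (v - x))
        have g3 : Real.exp (-(s * u)) * (Real.exp (s * x) *
              (1 - Real.exp (δ * (v - x)) - Real.exp (δ * (x - u)))) ≤ 0 :=
          mul_nonpos_of_nonneg_of_nonpos (Real.exp_pos _).le
            (mul_nonpos_of_nonneg_of_nonpos hp.le (by linarith))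
        linarith
    · rw [not_le] at hx
      have g1 : 1 ≤ Real.exp (δ * (v - x)) := Real.one_le_exp (by nlinarith)
      have g2 := Real.exp_pos (δ * (x - u))
      exact mul_nonpos_of_nonneg_of_nonpos (Real.exp_pos _).le
        (mul_nonpos_of_nonneg_of_nonpos hp.le (by linarith))
  refine le_trans ?_ h1
  have k1 := H.lo s e1
  have k2 := H.up (s - δ) e2
  have k3 := H.up (s + δ) e3
  set E := Real.exp (3 * s ^ 2 * h - D) with hE
  have hE0 : 0 < E := Real.exp_pos _
  have q : Real.exp (-(3 * δ ^ 2) * h + 2 * D) ≤ 1 / 4 := by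
    have : (1:ℝ) / 4 = Real.exp (-Real.log 4) := by
      rw [Real.exp_neg, Real.exp_log (by norm_num)]; norm_num
    rw [this]
    apply Real.exp_le_exp.2
    linarith
  have k2' : Real.exp (δ * v) * ∫ x, Real.exp ((s - δ) * x) ∂μ ≤ E * (1 / 4) := by
    refine (mul_le_mul_of_nonneg_left k2 (Real.exp_pos _).le).trans ?_
    refine le_trans (le_of_eq ?_) (mul_le_mul_of_nonneg_left q hE0.le)
    rw [hE, ← Real.exp_add, ← Real.exp_add]
    congr 1
    rw [hs, hv]; ring
  have k3' : Real.exp (-(δ * u)) * ∫ x, Real.exp ((s + δ) * x) ∂μ ≤ E * (1 / 4) := by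
    refine (mul_le_mul_of_nonneg_left k3 (Real.exp_pos _).le).trans ?_
    refine le_trans (le_of_eq ?_) (mul_le_mul_of_nonneg_left q hE0.le)
    rw [hE, ← Real.exp_add, ← Real.exp_add]
    congr 1
    rw [hs, hu]; ring
  have k4 : E / 2 ≤ ∫ x, Real.exp (s * x) ∂μ -
      Real.exp (δ * v) * ∫ x, Real.exp ((s - δ) * x) ∂μ -
      Real.exp (-(δ * u)) * ∫ x, Real.exp ((s + δ) * x) ∂μ := by linarith
  refine le_trans (le_of_eq ?_) (mul_le_mul_of_nonneg_left k4 (Real.exp_pos _).le)
  rw [← mul_div_assoc, hE, ← Real.exp_add]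
  congr 2
  rw [hs, hu]
  ring

end Pool.Agent.Zk36.UW
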