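import Mathlib

/-! Exponential moments and weak limits. -/

set_option autoImplicit false

namespace Pool.Agent.Zk36.UW

open MeasureTheory Filter Topology
open scoped ENNReal BoundedContinuousFunction

/-- cut-off exponential -/
noncomputable def cutE (t : ℝ) (k : ℕ) : ℝ →ᵇ ℝ :=
  BoundedContinuousFunction.ofNormedAddCommGroup (fun x => min (Real.exp (t * x)) k)
    (by fun_prop) k (by
      intro x
      have h1 := (Real.exp_pos (t * x)).le
      have h2 : (0:ℝ) ≤ k := Nat.cast_nonneg k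
      rw [Real.norm_of_nonneg (le_min h1 h2)]
      exact min_le_right _ _)

theorem cutE_apply (t : ℝ) (k : ℕ) (x : ℝ) : cutE t k x = min (Real.exp (t * x)) k := rfl

theorem cutE_nonneg (t : ℝ) (k : ℕ) (x : ℝ) : 0 ≤ cutE t k x :=
  le_min (Real.exp_pos _).le (Nat.cast_nonneg k)

theorem cutE_int (μ : ProbabilityMeasure ℝ) (t : ℝ) (k : ℕ) :
    Integrable (fun x => cutE t k x) (μ : Measure ℝ) := (cutE t k).integrable _

theorem cut_le (x : ℝ) (k : ℕ) (hk : 1 ≤ k) (t : ℝ) :
    Real.exp (t * x) ≤ cutE t k x + Real.exp (2 * t * x) / k := by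
  have hk' : (0:ℝ) < k := by exact_mod_cast hk
  have hp := Real.exp_pos (t * x)
  rw [cutE_apply]
  rcases le_total (Real.exp (t * x)) k with h | h
  · rw [min_eq_left h]
    have : 0 ≤ Real.exp (2 * t * x) / k := by positivity
    linarith
  · rw [min_eq_right h]
    have e : Real.exp (2 * t * x) = Real.exp (t * x) * Real.exp (t * x) := by
      rw [← Real.exp_add]; congr 1; ring
    have : Real.exp (t * x) ≤ Real.exp (2 * t * x) / k := by
      rw [le_div_iff₀ hk', e]
      exact mul_le_mul_of_nonneg_left h hp.le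
    linarith

variable {μs : ℕ → ProbabilityMeasure ℝ} {μ : ProbabilityMeasure ℝ}

theorem cut_up (hμ : Tendsto μs atTop (𝓝 μ)) {t : ℝ} {u : ℕ → ℝ} {U : ℝ}
    (hint : ∀ᶠ i in atTop, Integrable (fun x => Real.exp (t * x)) (μs i : Measure ℝ))
    (hu : ∀ᶠ i in atTop, ∫ x, Real.exp (t * x) ∂(μs i : Measure ℝ) ≤ u i)
    (hU : Tendsto u atTop (𝓝 U)) (k : ℕ) :
    ∫ x, cutE t k x ∂(μ : Measure ℝ) ≤ U := by
  have h1 := (ProbabilityMeasure.tendsto_iff_forall_integral_tendsto.1 hμ) (cutE t k)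
  refine le_of_tendsto_of_tendsto h1 hU ?_
  filter_upwards [hint, hu] with i h2 h3
  refine (integral_mono (cutE_int (μs i) t k) h2 ?_).trans h3
  intro x
  exact min_le_left _ _

theorem lim_up (hμ : Tendsto μs atTop (𝓝 μ)) {t : ℝ} {u : ℕ → ℝ} {U : ℝ}
    (hint : ∀ᶠ i in atTop, Integrable (fun x => Real.exp (t * x)) (μs i : Measure ℝ))
    (hu : ∀ᶠ i in atTop, ∫ x, Real.exp (t * x) ∂(μs i : Measure ℝ) ≤ u i)
    (hU : Tendsto u atTop (𝓝 U)) :
    Integrable (fun x => Real.exp (t * x)) (μ : Measure ℝ) ∧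
      ∫ x, Real.exp (t * x) ∂(μ : Measure ℝ) ≤ U := by
  have hc := cut_up hμ hint hu hU
  have hU0 : 0 ≤ U := (integral_nonneg (fun x => cutE_nonneg t 0 x)).trans (hc 0)
  have h1 : Tendsto (fun k : ℕ => ∫⁻ x, ENNReal.ofReal (cutE t k x) ∂(μ : Measure ℝ)) atTop
      (𝓝 (∫⁻ x, ENNReal.ofReal (Real.exp (t * x)) ∂(μ : Measure ℝ))) := by
    apply lintegral_tendsto_of_tendsto_of_monotone
    · intro k
      exact ((cutE t k).continuous.measurable.ennreal_ofReal).aemeasurable
    · refine Eventually.of_forall fun x k l hkl => ENNReal.ofReal_le_ofReal ?_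
      rw [cutE_apply, cutE_apply]
      exact min_le_min_left _ (by exact_mod_cast hkl)
    · refine Eventually.of_forall fun x => ?_
      refine (ENNReal.continuous_ofReal.tendsto _).comp ?_
      refine tendsto_const_nhds.congr' ?_
      filter_upwards [eventually_ge_atTop ⌈Real.exp (t * x)⌉₊] with k hk
      rw [cutE_apply, min_eq_left ((Nat.le_ceil _).trans (by exact_mod_cast hk))]
  have h2 : ∫⁻ x, ENNReal.ofReal (Real.exp (t * x)) ∂(μ : Measure ℝ) ≤ ENNReal.ofReal U := by
    refine le_of_tendsto' h1 fun k => ?_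
    rw [← ofReal_integral_eq_lintegral_ofReal (cutE_int μ t k)
      (Eventually.of_forall fun x => cutE_nonneg t k x)]
    exact ENNReal.ofReal_le_ofReal (hc k)
  have h3 : Integrable (fun x => Real.exp (t * x)) (μ : Measure ℝ) := by
    refine ⟨(by fun_prop : Continuous fun x : ℝ => Real.exp (t * x)).aestronglyMeasurable, ?_⟩
    rw [hasFiniteIntegral_iff_ofReal (Eventually.of_forall fun x => (Real.exp_pos _).le)]
    exact h2.trans_lt ENNReal.ofReal_lt_top
  refine ⟨h3, ?_⟩
  rw [← ofReal_integral_eq_lintegral_ofReal h3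
    (Eventually.of_forall fun x => (Real.exp_pos _).le)] at h2
  exact (ENNReal.ofReal_le_ofReal_iff hU0).1 h2

theorem lim_lo (hμ : Tendsto μs atTop (𝓝 μ)) {t : ℝ} {l u : ℕ → ℝ} {L U : ℝ}
    (hI : Integrable (fun x => Real.exp (t * x)) (μ : Measure ℝ))
    (hint : ∀ᶠ i in atTop, Integrable (fun x => Real.exp (t * x)) (μs i : Measure ℝ))
    (hint2 : ∀ᶠ i in atTop, Integrable (fun x => Real.exp (2 * t * x)) (μs i : Measure ℝ))
    (hl : ∀ᶠ i in atTop, l i ≤ ∫ x, Real.exp (t * x) ∂(μs i : Measure ℝ))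
    (hu : ∀ᶠ i in atTop, ∫ x, Real.exp (2 * t * x) ∂(μs i : Measure ℝ) ≤ u i)
    (hL : Tendsto l atTop (𝓝 L)) (hU : Tendsto u atTop (𝓝 U)) :
    L ≤ ∫ x, Real.exp (t * x) ∂(μ : Measure ℝ) := by
  have h1 : ∀ k : ℕ, 1 ≤ k → L - U / k ≤ ∫ x, Real.exp (t * x) ∂(μ : Measure ℝ) := by
    intro k hk
    have hk' : (0:ℝ) < k := by exact_mod_cast hk
    have h2 : L - U / k ≤ ∫ x, cutE t k x ∂(μ : Measure ℝ) := by
      have h3 := (ProbabilityMeasure.tendsto_iff_forall_integral_tendsto.1 hμ) (cutE t k)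
      refine le_of_tendsto_of_tendsto (hL.sub (hU.div_const k)) h3 ?_
      filter_upwards [hint, hint2, hl, hu] with i a1 a2 a3 a4
      have h4 : ∫ x, Real.exp (t * x) ∂(μs i : Measure ℝ) ≤
          ∫ x, cutE t k x ∂(μs i : Measure ℝ) +
            (∫ x, Real.exp (2 * t * x) ∂(μs i : Measure ℝ)) / k := by
        rw [← integral_div, ← integral_add (cutE_int (μs i) t k) (a2.div_const _)]
        exact integral_mono a1 ((cutE_int (μs i) t k).add (a2.div_const _))
          (fun x => cut_le x k hk t)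
      have h5 : (∫ x, Real.exp (2 * t * x) ∂(μs i : Measure ℝ)) / k ≤ u i / k :=
        div_le_div_of_nonneg_right a4 hk'.le
      linarith
    refine h2.trans (integral_mono (cutE_int μ t k) hI fun x => min_le_left _ _)
  have h2 : Tendsto (fun k : ℕ => L - U / k) atTop (𝓝 (L - 0)) :=
    tendsto_const_nhds.sub (tendsto_const_div_atTop_nhds_zero_nat U)
  rw [sub_zero] at h2
  refine le_of_tendsto h2 ?_
  filter_upwards [eventually_ge_atTop 1] with k hk
  exact h1 k hk

/-- tightness from exponential moments -/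
theorem tight_exp {t U : ℝ} (ht : 0 < t) {S : Set (ProbabilityMeasure ℝ)}
    (h : ∀ ν ∈ S, Integrable (fun x => Real.exp (t * x)) (ν : Measure ℝ) ∧
      Integrable (fun x => Real.exp (-t * x)) (ν : Measure ℝ) ∧
      ∫ x, Real.exp (t * x) ∂(ν : Measure ℝ) ≤ U ∧
      ∫ x, Real.exp (-t * x) ∂(ν : Measure ℝ) ≤ U) :
    IsTightMeasureSet {((ν : ProbabilityMeasure ℝ) : Measure ℝ) | ν ∈ S} := by
  rw [isTightMeasureSet_iff_exists_isCompact_measure_compl_le]
  intro ε hε
  by_cases htop : ε = ⊤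
  · exact ⟨∅, isCompact_empty, fun ν _ => by rw [htop]; exact le_top⟩
  have hε' : 0 < ε.toReal := ENNReal.toReal_pos hε.ne' htop
  obtain ⟨R, hR⟩ : ∃ R : ℝ, Real.exp (-(t * R)) * (2 * U) ≤ ε.toReal := by
    have h1 : Tendsto (fun R : ℝ => Real.exp (-(t * R)) * (2 * U)) atTop (𝓝 (0 * (2 * U))) := by
      apply Tendsto.mul_const
      exact Real.tendsto_exp_neg_atTop_nhds_zero.comp (tendsto_id.const_mul_atTop ht)
    rw [zero_mul] at h1
    obtain ⟨R, hR⟩ := (h1.eventually_lt_const hε').exists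
    exact ⟨R, hR.le⟩
  refine ⟨Set.Icc (-R) R, isCompact_Icc, ?_⟩
  rintro ν ⟨ν', hν', rfl⟩
  obtain ⟨i1, i2, u1, u2⟩ := h ν' hν'
  have hm : MeasurableSet (Set.Icc (-R) R)ᶜ := measurableSet_Icc.compl
  have h1 : (ν' : Measure ℝ).real (Set.Icc (-R) R)ᶜ ≤ ε.toReal := by
    refine le_trans ?_ hR
    have h2 : (ν' : Measure ℝ).real (Set.Icc (-R) R)ᶜ =
        ∫ x, (Set.Icc (-R) R)ᶜ.indicator (fun _ => (1:ℝ)) x ∂(ν' : Measure ℝ) := by
      rw [integral_indicator hm]
      simp
    have h3 : ∫ x, (Set.Icc (-R) R)ᶜ.indicator (fun _ => (1:ℝ)) x ∂(ν' : Measure ℝ) ≤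
        ∫ x, Real.exp (-(t * R)) * (Real.exp (t * x) + Real.exp (-t * x)) ∂(ν' : Measure ℝ) := by
      apply integral_mono ((integrable_const _).indicator hm) ((i1.add i2).const_mul _)
      intro x
      simp only [Set.indicator, Set.mem_compl_iff, Set.mem_Icc, Pi.add_apply]
      have p1 := Real.exp_pos (-(t * R))
      have p2 := Real.exp_pos (t * x)
      have p3 := Real.exp_pos (-t * x)
      split_ifs with hx
      · positivity
      · rw [not_and_or, not_le, not_le] at hx
        have q : 1 ≤ Real.exp (-(t * R)) * Real.exp (t * x) ∨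
            1 ≤ Real.exp (-(t * R)) * Real.exp (-t * x) := by
          rcases hx with hx | hx
          · right
            rw [← Real.exp_add]
            apply Real.one_le_exp
            nlinarith
          · left
            rw [← Real.exp_add]
            apply Real.one_le_exp
            nlinarith
        have q1 := mul_pos p1 p2
        have q2 := mul_pos p1 p3
        rw [mul_add]
        rcases q with q | q <;> linarith
    rw [h2]
    refine h3.trans ?_
    rw [integral_const_mul, integral_add i1 i2]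
    apply mul_le_mul_of_nonneg_left _ (Real.exp_pos _).le
    linarith
  rw [← ENNReal.ofReal_toReal htop, ← ofReal_measureReal (measure_ne_top _ _)]
  exact ENNReal.ofReal_le_ofReal h1

end Pool.Agent.Zk36.UW
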