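import Pool.Agent.Zk36.UW.Law
import Pool.Agent.Zk36.UW.Weak

/-! Exponential moments and deviation probabilities of the winding angle on the lattice and in the
scaling limit. -/

set_option autoImplicit false

namespace Pool.Agent.Zk36.UW

open MeasureTheory Filter Topology H906K Pool.Agent.Zk36.CG
open scoped ENNReal

theorem exp_lmg (n M : ℕ) (t : ℝ) :
    Real.exp (lmg n M t) = ∫ x, Real.exp (t * x) ∂(lawM n M) := by
  rw [law_integral n M fun x => Real.exp (t * x)]
  unfold lmg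
  rw [Real.exp_log]
  unfold Ex
  apply div_pos _ (by positivity)
  exact Finset.sum_pos (fun c _ => Real.exp_pos _) Finset.univ_nonempty

theorem Lap.neg {μ : Measure ℝ} {t0 h D : ℝ} (H : Lap μ t0 h D) :
    Lap (μ.map fun x => -x) t0 h D := by
  have hm : AEMeasurable (fun x : ℝ => -x) μ := measurable_neg.aemeasurable
  have e : ∀ t : ℝ, ∫ x, Real.exp (t * x) ∂(μ.map fun x => -x) = ∫ x, Real.exp (-t * x) ∂μ := by
    intro t
    rw [integral_map hm (by fun_prop : Continuous fun x : ℝ => Real.exp (t * x)).aestronglyMeasurable]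
    congr 1
    funext x
    congr 1
    ring
  refine ⟨fun t ht => ?_, fun t ht => ?_, fun t ht => ?_⟩
  · have h1 := H.int (-t) (by rwa [abs_neg])
    rw [integrable_map_measure
      (by fun_prop : Continuous fun x : ℝ => Real.exp (t * x)).aestronglyMeasurable hm]
    refine h1.congr (Eventually.of_forall fun x => ?_)
    simp only [Function.comp]
    congr 1
    ring
  · rw [e]
    have := H.up (-t) (by rwa [abs_neg])
    simpa using this
  · rw [e]
    have := H.lo (-t) (by rwa [abs_neg])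
    simpa using this

theorem neg_Ici (μ : Measure ℝ) (b : ℝ) :
    (μ.map fun x => -x).real (Set.Ici b) = μ.real (Set.Iic (-b)) := by
  rw [measureReal_def, measureReal_def, Measure.map_apply measurable_neg measurableSet_Ici]
  congr 2
  ext x
  simp only [Set.mem_preimage, Set.mem_Ici, Set.mem_Iic]
  constructor <;> intro h <;> linarith

instance neg_prob (μ : Measure ℝ) [IsProbabilityMeasure μ] :
    IsProbabilityMeasure (μ.map fun x => -x) :=
  Measure.isProbabilityMeasure_map measurable_neg.aemeasurable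

theorem lap_lattice {t0 K : ℝ} (hK : 0 ≤ K) {ε : ℕ → ℝ} (hε : ∀ n, 0 ≤ ε n)
    (H : ∀ n : ℕ, 1 ≤ n → ∀ (M : ℕ) (t : ℝ), |t| ≤ t0 →
      |lmg n M t - 3 * t ^ 2 * ht n M| ≤ K * |t| + ε n * t ^ 2 * ht n M)
    {n : ℕ} (hn : 1 ≤ n) (M : ℕ) :
    Lap (lawM n M) t0 (ht n M) (K * t0 + ε n * t0 ^ 2 * ht n M) := by
  have hh : 0 ≤ ht n M := by unfold ht; positivity
  have h1 : ∀ t, |t| ≤ t0 → |lmg n M t - 3 * t ^ 2 * ht n M| ≤
      K * t0 + ε n * t0 ^ 2 * ht n M := by
    intro t ht'
    refine (H n hn M t ht').trans (add_le_add (mul_le_mul_of_nonneg_left ht' hK) ?_)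
    apply mul_le_mul_of_nonneg_right _ hh
    apply mul_le_mul_of_nonneg_left _ (hε n)
    rw [← sq_abs]
    exact pow_le_pow_left₀ (abs_nonneg _) ht' 2
  refine ⟨fun t _ => law_intble n M _, fun t ht' => ?_, fun t ht' => ?_⟩
  · rw [← exp_lmg]
    apply Real.exp_le_exp.2
    have := (abs_le.1 (h1 t ht')).2
    linarith
  · rw [← exp_lmg]
    apply Real.exp_le_exp.2
    have := (abs_le.1 (h1 t ht')).1
    linarith

/-- deviation probabilities from the exponential moments -/
theorem log_dev {μ : Measure ℝ} [IsProbabilityMeasure μ] {t0 h D : ℝ} (H : Lap μ t0 h D)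
    (hh : 0 < h) {a δ : ℝ} (ha : 0 ≤ a) (hδ : 0 < δ) (hat : a / 6 + 2 * δ ≤ t0)
    (hD : 0 ≤ D) (hbig : 2 * D + Real.log 4 ≤ 3 * δ ^ 2 * h) :
    |Real.log (μ.real (Set.Ici (a * h))) / h + a ^ 2 / 12| ≤
      2 * a * δ + 9 * δ ^ 2 + (D + Real.log 2) / h := by
  have h1 := dev_up H ha (by linarith)
  have h2 := dev_lo H hh.le ha hδ hat hbig
  have hl2 : 0 ≤ Real.log 2 := Real.log_nonneg (by norm_num)
  have h3 : 0 < μ.real (Set.Ici (a * h)) := lt_of_lt_of_le (by positivity) h2
  have h4 : Real.log (μ.real (Set.Ici (a * h))) ≤ -(a ^ 2 / 12) * h + D := by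
    rw [← Real.log_exp (-(a ^ 2 / 12) * h + D)]
    exact Real.log_le_log h3 h1
  have h5 : -(a ^ 2 / 12) * h - (2 * a * δ + 9 * δ ^ 2) * h - D - Real.log 2 ≤
      Real.log (μ.real (Set.Ici (a * h))) := by
    have h6 := Real.log_le_log (by positivity) h2
    rwa [Real.log_div (Real.exp_pos _).ne' (by norm_num), Real.log_exp] at h6
  have e1 : Real.log (μ.real (Set.Ici (a * h))) / h + a ^ 2 / 12 =
      (Real.log (μ.real (Set.Ici (a * h))) + a ^ 2 / 12 * h) / h := by field_simp
  have e2 : 2 * a * δ + 9 * δ ^ 2 + (D + Real.log 2) / h =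
      ((2 * a * δ + 9 * δ ^ 2) * h + (D + Real.log 2)) / h := by field_simp
  have hp : 0 ≤ (2 * a * δ + 9 * δ ^ 2) * h := by positivity
  rw [e1, e2, abs_div, abs_of_pos hh]
  apply div_le_div_of_nonneg_right _ hh.le
  rw [abs_le]
  constructor <;> linarith

/-- choice of the auxiliary parameter -/
theorem exists_delta {t0 a ε : ℝ} (ht0 : 0 < t0) (ha : 0 < a) (hat : a < 3 * t0) (hε : 0 < ε) :
    ∃ δ : ℝ, 0 < δ ∧ a / 6 + 2 * δ ≤ t0 ∧ 2 * a * δ + 9 * δ ^ 2 ≤ ε / 2 := by
  refine ⟨min (t0 / 4) (min 1 (ε / (2 * (2 * a + 9)))), by positivity, ?_, ?_⟩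
  · have : min (t0 / 4) (min 1 (ε / (2 * (2 * a + 9)))) ≤ t0 / 4 := min_le_left _ _
    linarith
  · set d := min (t0 / 4) (min 1 (ε / (2 * (2 * a + 9)))) with hd
    have d0 : 0 < d := by positivity
    have d1 : d ≤ 1 := (min_le_right _ _).trans (min_le_left _ _)
    have d2 : d ≤ ε / (2 * (2 * a + 9)) := (min_le_right _ _).trans (min_le_right _ _)
    rw [le_div_iff₀ (by positivity)] at d2
    have : 9 * d ^ 2 ≤ 9 * d := by nlinarith
    nlinarith

/-- **deviation probabilities on the lattice, uniformly in the mesh** -/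
theorem deviations_unif : ∃ a0 : ℝ, 0 < a0 ∧ ∀ a : ℝ, 0 < a → a < a0 → ∀ ε : ℝ, 0 < ε →
    ∃ (n0 : ℕ) (h0 : ℝ), ∀ n M : ℕ, n0 ≤ n → h0 ≤ ht n M →
      |Real.log (Ex n M fun c => if a * ht n M ≤ Wd n M c then 1 else 0) / ht n M
        + a ^ 2 / 12| < ε ∧
      |Real.log (Ex n M fun c => if Wd n M c ≤ -(a * ht n M) then 1 else 0) / ht n M
        + a ^ 2 / 12| < ε := by
  obtain ⟨t0, ht0, K, hK, e, he, he0, H⟩ := uniform_laplace
  refine ⟨3 * t0, by positivity, fun a ha hat ε hε => ?_⟩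
  obtain ⟨δ, hδ, hδ1, hδ2⟩ := exists_delta ht0 ha hat hε
  have hl4 : 0 ≤ Real.log 4 := Real.log_nonneg (by norm_num)
  have hl2 : 0 ≤ Real.log 2 := Real.log_nonneg (by norm_num)
  have hl24 : Real.log 2 ≤ Real.log 4 := Real.log_le_log (by norm_num) (by norm_num)
  set η := min (δ ^ 2) (ε / 8) with hη
  have hη0 : 0 < η := by positivity
  have h1 : ∀ᶠ n in atTop, e n * t0 ^ 2 < η := by
    have := he.mul_const (t0 ^ 2)
    rw [zero_mul] at this
    exact this.eventually_lt_const hη0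
  obtain ⟨n1, hn1⟩ := eventually_atTop.1 h1
  refine ⟨max 1 n1, max 1 ((2 * K * t0 + Real.log 4) / η), fun n M hn hM => ?_⟩
  have hh : 0 < ht n M := lt_of_lt_of_le one_pos ((le_max_left _ _).trans hM)
  have hh2 : 2 * K * t0 + Real.log 4 ≤ η * ht n M := by
    have := (le_max_right _ _).trans hM
    rw [div_le_iff₀ hη0] at this
    linarith
  have hn2 := hn1 n ((le_max_right _ _).trans hn)
  have L := lap_lattice hK he0 H ((le_max_left _ _).trans hn) M
  set D := K * t0 + e n * t0 ^ 2 * ht n M with hD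
  have hDh : 2 * D + Real.log 4 ≤ 3 * η * ht n M := by
    have : e n * t0 ^ 2 * ht n M ≤ η * ht n M := mul_le_mul_of_nonneg_right hn2.le hh.le
    rw [hD]
    linarith
  have hD0 : 0 ≤ D := by
    have := he0 n
    positivity
  have hbig : 2 * D + Real.log 4 ≤ 3 * δ ^ 2 * ht n M := by
    refine hDh.trans ?_
    apply mul_le_mul_of_nonneg_right _ hh.le
    have : η ≤ δ ^ 2 := min_le_left _ _
    linarith
  have hfin : 2 * a * δ + 9 * δ ^ 2 + (D + Real.log 2) / ht n M < ε := by
    have h5 : (D + Real.log 2) / ht n M ≤ 3 * η := by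
      rw [div_le_iff₀ hh]
      linarith
    have h6 : η ≤ ε / 8 := min_le_right _ _
    linarith
  constructor
  · have := log_dev L hh ha.le hδ hδ1 hD0 hbig
    rw [law_Ici] at this
    exact this.trans_lt hfin
  · have := log_dev L.neg hh ha.le hδ hδ1 hD0 hbig
    have e1 : (lawM n M).real (Set.Iic (-(a * ht n M))) =
        Ex n M (fun c => if Wd n M c ≤ -(a * ht n M) then 1 else 0) := by
      rw [← integral_indicator_one measurableSet_Iic, law_integral]
      rfl
    rw [neg_Ici, e1] at this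
    exact this.trans_lt hfin

end Pool.Agent.Zk36.UW
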