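import Pool.Agent.Zk36.UW.Bnd

/-! The renewal induction. -/

set_option autoImplicit false
set_option linter.unusedSectionVars false

namespace Pool.Agent.Zk36.UW

open Finset

variable {β : Type} [Fintype β] [Nonempty β]

variable {N : ℕ} {gi X : List β → ℝ} {c0 θ B : ℝ}

/-- the constants approximating the partition functions -/
noncomputable def MM (N : ℕ) (gi X : List β → ℝ) (t : ℝ) (r : ℕ) : ℕ → ℝ
  | 0 => 1
  | k + 1 => (1 - Av N gi) * MM N gi X t r k + Av N (fun g => gi g * YY N X t r k g)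

theorem MM_succ (N : ℕ) (gi X : List β → ℝ) (t : ℝ) (r k : ℕ) : MM N gi X t r (k+1) =
    (1 - Av N gi) * MM N gi X t r k + Av N (fun g => gi g * YY N X t r k g) := rfl

theorem MM_eq (N : ℕ) (gi X : List β → ℝ) (t : ℝ) (r k : ℕ) : MM N gi X t r k =
    ∑ s ∈ range k, (1 - Av N gi)^s * Av N (fun g => gi g * YY N X t r (k-1-s) g) +
      (1 - Av N gi)^k := by
  induction k with
  | zero => rw [Finset.range_zero, Finset.sum_empty, pow_zero, zero_add]; rfl
  | succ k ih =>
    rw [MM_succ, ih, Finset.sum_range_succ']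
    have h1 : ∀ s ∈ range k, (1 - Av N gi)^(s+1) *
        Av N (fun g => gi g * YY N X t r (k+1-1-(s+1)) g) =
        (1 - Av N gi) * ((1 - Av N gi)^s * Av N (fun g => gi g * YY N X t r (k-1-s) g)) := by
      intro s _
      rw [show k + 1 - 1 - (s + 1) = k - 1 - s by omega, pow_succ]
      ring
    rw [Finset.sum_congr rfl h1, ← Finset.mul_sum, show k + 1 - 1 - 0 = k by omega, pow_zero,
      one_mul, pow_succ]
    ring

theorem abs_le_sqrt_mul {x a b : ℝ} (ha : 0 ≤ a) (h : x^2 ≤ a * b) : |x| ≤ √a * √b := by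
  rw [← Real.sqrt_mul ha, ← Real.sqrt_sq_eq_abs]
  exact Real.sqrt_le_sqrt h

theorem cs_gi (H : Hyp N gi X c0 θ B) (f h : List β → ℝ) :
    |Av N (fun g => gi g * (f g * h g))| ≤
      √(Av N (fun g => gi g * f g ^ 2)) * √(Av N (fun g => gi g * h g ^ 2)) := by
  apply abs_le_sqrt_mul (Av_nonneg fun g _ => mul_nonneg (H.gi0 g) (sq_nonneg _))
  have h1 := Av_cs N (fun g => gi g * f g) (fun g => gi g * h g)
  have e1 : Av N (fun g => gi g * f g * (gi g * h g)) = Av N (fun g => gi g * (f g * h g)) :=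
    Av_congr fun g _ => by
      have := H.gisq g
      calc gi g * f g * (gi g * h g) = gi g ^ 2 * (f g * h g) := by ring
        _ = _ := by rw [this]
  have e2 : ∀ f : List β → ℝ, Av N (fun g => (gi g * f g)^2) = Av N (fun g => gi g * f g ^ 2) :=
    fun f => Av_congr fun g _ => by rw [mul_pow, H.gisq g]
  rw [e1, e2, e2] at h1
  exact h1

theorem ptw (H : Hyp N gi X c0 θ B) (t : ℝ) (r k : ℕ) {σ : ℝ} (hσ : 1 ≤ σ)
    (hM : 0 < MM N gi X t r k)
    (hY : ∀ j < k, √(Av N (fun g => gi g * YY N X t r j g ^ 2)) ≤ 2 * σ^(k-j) * MM N gi X t r k)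
    (h1 : 1 ≤ σ^k * MM N gi X t r k) (c : List β) (z : ℝ) :
    |Real.exp (-(t * z)) * YY N X t r k c - MM N gi X t r k| ≤
      MM N gi X t r k * ∑ s ∈ range (k+1), 2 * σ^(s+1) * √(uu N gi X t r k s c z) := by
  have hσ0 : 0 < σ := by linarith
  have e0 : Real.exp (-(t * z)) * YY N X t r k c - MM N gi X t r k =
      ∑ s ∈ range k, Av N (fun g => gi g * ((ker N gi X t s c z g - (1 - Av N gi)^s) *
        YY N X t r (k-1-s) g)) + (las N gi X t r k c z - (1 - Av N gi)^k) := by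
    rw [renewal H t r k c z, MM_eq]
    have h2 : ∀ s ∈ range k, Av N (fun g => gi g * ((ker N gi X t s c z g - (1 - Av N gi)^s) *
        YY N X t r (k-1-s) g)) = Av N (fun g => gi g * (ker N gi X t s c z g *
        YY N X t r (k-1-s) g)) - (1 - Av N gi)^s * Av N (fun g => gi g * YY N X t r (k-1-s) g) := by
      intro s _
      rw [← Av_mul, ← Av_sub]
      exact Av_congr fun g _ => by ring
    rw [Finset.sum_congr rfl h2, Finset.sum_sub_distrib]
    ring
  rw [e0, Finset.sum_range_succ, mul_add, Finset.mul_sum]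
  refine (abs_add_le _ _).trans (add_le_add ?_ ?_)
  · refine (Finset.abs_sum_le_sum_abs _ _).trans (Finset.sum_le_sum fun s hs => ?_)
    rw [Finset.mem_range] at hs
    refine (cs_gi H _ _).trans ?_
    have h3 := hY (k-1-s) (by omega)
    rw [show k - (k-1-s) = s+1 by omega] at h3
    have h4 : uu N gi X t r k s c z = qs N gi X t s c z := by
      unfold uu; rw [if_neg (by omega)]
    rw [h4]
    calc √(Av N (fun g => gi g * (ker N gi X t s c z g - (1 - Av N gi)^s)^2)) *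
          √(Av N (fun g => gi g * YY N X t r (k-1-s) g ^ 2))
        ≤ √(qs N gi X t s c z) * (2 * σ^(s+1) * MM N gi X t r k) :=
          mul_le_mul_of_nonneg_left h3 (Real.sqrt_nonneg _)
      _ = _ := by ring
  · have h4 : uu N gi X t r k k c z = bs N gi X t r k c z := by
      unfold uu; rw [if_pos rfl]
    rw [h4]
    unfold bs
    rw [Real.sqrt_sq_eq_abs]
    have h5 : 1 ≤ MM N gi X t r k * (2 * σ^(k+1)) := by
      have h6 : σ^k ≤ σ^(k+1) := pow_le_pow_right₀ hσ (by omega)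
      have h7 : σ^k * MM N gi X t r k ≤ σ^(k+1) * MM N gi X t r k :=
        mul_le_mul_of_nonneg_right h6 hM.le
      nlinarith [mul_pos (pow_pos hσ0 (k+1)) hM]
    calc |las N gi X t r k c z - (1 - Av N gi)^k|
        ≤ (MM N gi X t r k * (2 * σ^(k+1))) * |las N gi X t r k c z - (1 - Av N gi)^k| :=
          le_mul_of_one_le_left (abs_nonneg _) h5
      _ = _ := by ring

/-- weighted Cauchy-Schwarz -/
theorem wcs {σ ρ : ℝ} (hσ : 1 < σ) (hρ : 0 < ρ) (hσρ : σ * ρ < 1) (u : ℕ → ℝ) (hu : ∀ s, 0 ≤ u s)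
    (k : ℕ) : (∑ s ∈ range (k+1), 2 * σ^(s+1) * √(u s))^2 ≤
      2 * σ / (1 - σ * ρ) * ∑ s ∈ range (k+1), 2 * σ^(s+1) / ρ^s * u s := by
  have hσ0 : 0 < σ := by linarith
  have h1 := Finset.sum_sq_le_sum_mul_sum_of_sq_le_mul (range (k+1))
    (r := fun s => 2 * σ^(s+1) * √(u s)) (f := fun s => 2 * σ^(s+1) * ρ^s)
    (g := fun s => 2 * σ^(s+1) / ρ^s * u s) (fun s _ => by positivity)
    (fun s _ => mul_nonneg (by positivity) (hu s)) (fun s _ => le_of_eq (by
      rw [mul_pow, Real.sq_sqrt (hu s)]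
      field_simp))
  refine h1.trans (mul_le_mul_of_nonneg_right ?_
    (Finset.sum_nonneg fun s _ => mul_nonneg (by positivity) (hu s)))
  have h2 : ∑ s ∈ range (k+1), 2 * σ^(s+1) * ρ^s = 2 * σ * ∑ s ∈ range (k+1), (σ * ρ)^s := by
    rw [Finset.mul_sum]
    exact Finset.sum_congr rfl fun s _ => by rw [mul_pow, pow_succ]; ring
  rw [h2, div_eq_mul_inv]
  apply mul_le_mul_of_nonneg_left _ (by positivity)
  have h3 := geom_sum_eq (x := σ * ρ) (by linarith : σ * ρ ≠ 1) (k+1)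
  have hx0 : 0 ≤ σ * ρ := by positivity
  rw [h3, div_eq_mul_inv, show (σ * ρ)^(k+1) - 1 = -(1 - (σ * ρ)^(k+1)) by ring,
    show σ * ρ - 1 = -(1 - σ * ρ) by ring, inv_neg, neg_mul_neg]
  have h4 : 1 - (σ * ρ)^(k+1) ≤ 1 := by linarith [pow_nonneg hx0 (k+1)]
  have h5 : 0 < (1 - σ * ρ)⁻¹ := inv_pos.2 (by linarith)
  nlinarith

/-- the squared error bound -/
noncomputable def RR (N : ℕ) (gi X : List β → ℝ) (t : ℝ) (r : ℕ) (σ ρ : ℝ) (k : ℕ) (c : List β)
    (z : ℝ) : ℝ :=
  2 * σ / (1 - σ * ρ) * ∑ s ∈ range (k+1), 2 * σ^(s+1) / ρ^s * uu N gi X t r k s c z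

theorem RR_nonneg (H : Hyp N gi X c0 θ B) {σ ρ : ℝ} (hσ : 1 < σ) (hρ : 0 < ρ) (hσρ : σ * ρ < 1)
    (t : ℝ) (r k : ℕ) (c : List β) (z : ℝ) : 0 ≤ RR N gi X t r σ ρ k c z := by
  unfold RR
  have : 0 < 1 - σ * ρ := by linarith
  exact mul_nonneg (by positivity) (Finset.sum_nonneg fun s _ => mul_nonneg (by positivity)
    (uu_nonneg H t r k s c z))

theorem RR_avg (H : Hyp N gi X c0 θ B) (hθ : 0 < θ) (hB : 1 ≤ B) {σ ρ : ℝ} (hσ : 1 < σ)
    (hρ0 : 0 < ρ) (hσρ : σ * ρ < 1) (hρ : (1 - c0) * B ≤ ρ^2)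
    {t : ℝ} (ht : |t| ≤ θ / 12) {r : ℕ} (hr : r ≤ N) (k : ℕ) (L m : ℕ)
    (hL : L ≤ m * N) (ζ : List β → ℝ) (hζ : Av L (fun c => Real.exp (θ * |ζ c|)) ≤ B) :
    Av L (fun c => RR N gi X t r σ ρ k c (ζ c)) ≤
      (2 * σ / (1 - σ * ρ))^2 * (216 * (t/θ)^2 * B^(m+1)) := by
  unfold RR
  rw [Av_mul, Av_sum]
  have h0 : 0 < 1 - σ * ρ := by linarith
  have hσ0 : 0 < σ := by linarith
  rw [pow_two, mul_assoc]
  apply mul_le_mul_of_nonneg_left _ (by positivity)
  have h1 : ∀ s ∈ range (k+1), Av L (fun c => 2 * σ^(s+1) / ρ^s * uu N gi X t r k s c (ζ c)) ≤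
      (2 * σ^(s+1) * ρ^s) * (216 * (t/θ)^2 * B^(m+1)) := by
    intro s hs
    rw [Finset.mem_range] at hs
    rw [Av_mul]
    have h2 := uu_avg H hθ hB hρ ht hr k s (by omega) L m hL ζ hζ
    calc 2 * σ^(s+1) / ρ^s * Av L (fun c => uu N gi X t r k s c (ζ c))
        ≤ 2 * σ^(s+1) / ρ^s * (216 * (t/θ)^2 * B^(m+1) * (ρ^s)^2) :=
          mul_le_mul_of_nonneg_left h2 (by positivity)
      _ = _ := by field_simp
  refine (Finset.sum_le_sum h1).trans ?_
  rw [← Finset.sum_mul]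
  apply mul_le_mul_of_nonneg_right _ (by positivity)
  have h2 : ∑ s ∈ range (k+1), 2 * σ^(s+1) * ρ^s = 2 * σ * ∑ s ∈ range (k+1), (σ * ρ)^s := by
    rw [Finset.mul_sum]
    exact Finset.sum_congr rfl fun s _ => by rw [mul_pow, pow_succ]; ring
  rw [h2, div_eq_mul_inv]
  apply mul_le_mul_of_nonneg_left _ (by positivity)
  have h3 := geom_sum_eq (x := σ * ρ) (by linarith : σ * ρ ≠ 1) (k+1)
  have hx0 : 0 ≤ σ * ρ := by positivity
  rw [h3, div_eq_mul_inv, show (σ * ρ)^(k+1) - 1 = -(1 - (σ * ρ)^(k+1)) by ring,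
    show σ * ρ - 1 = -(1 - σ * ρ) by ring, inv_neg, neg_mul_neg]
  have h4 : 1 - (σ * ρ)^(k+1) ≤ 1 := by linarith [pow_nonneg hx0 (k+1)]
  have h5 : 0 < (1 - σ * ρ)⁻¹ := inv_pos.2 (by linarith)
  nlinarith

theorem ptw_sq (H : Hyp N gi X c0 θ B) (t : ℝ) (r k : ℕ) {σ ρ : ℝ} (hσ : 1 < σ)
    (hρ0 : 0 < ρ) (hσρ : σ * ρ < 1) (hM : 0 < MM N gi X t r k)
    (hY : ∀ j < k, √(Av N (fun g => gi g * YY N X t r j g ^ 2)) ≤ 2 * σ^(k-j) * MM N gi X t r k)
    (h1 : 1 ≤ σ^k * MM N gi X t r k) (c : List β) (z : ℝ) :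
    (Real.exp (-(t * z)) * YY N X t r k c - MM N gi X t r k)^2 ≤
      MM N gi X t r k ^ 2 * RR N gi X t r σ ρ k c z := by
  have h2 := ptw H t r k hσ.le hM hY h1 c z
  have h3 := wcs hσ hρ0 hσρ (fun s => uu N gi X t r k s c z) (fun s => uu_nonneg H t r k s c z) k
  rw [← sq_abs]
  refine (pow_le_pow_left₀ (abs_nonneg _) h2 2).trans ?_
  rw [mul_pow]
  exact mul_le_mul_of_nonneg_left h3 (sq_nonneg _)

/-- the parameters -/
structure Par (c0 θ B σ ρ ε t : ℝ) : Prop where
  hθ : 0 < θ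
  hB : 1 ≤ B
  hσ : 1 < σ
  hρ0 : 0 < ρ
  hσρ : σ * ρ < 1
  hρ : (1 - c0) * B ≤ ρ^2
  ht : |t| ≤ θ / 12
  hε0 : 0 ≤ ε
  hε : (2 * σ / (1 - σ * ρ))^2 * (216 * (t/θ)^2 * B^2) ≤ ε^2
  hε1 : 1 ≤ σ * (1 - ε)
  hε2 : ε ≤ 1

theorem main_ind (H : Hyp N gi X c0 θ B) {σ ρ ε t : ℝ} (P : Par c0 θ B σ ρ ε t) {r : ℕ}
    (hr : r ≤ N) : ∀ k : ℕ, 0 < MM N gi X t r k ∧
      (∀ j < k, MM N gi X t r j ≤ σ^(k-j) * MM N gi X t r k) ∧
      (∀ j < k, √(Av N (fun g => gi g * YY N X t r j g ^ 2)) ≤ 2 * σ^(k-j) * MM N gi X t r k) ∧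
      1 ≤ σ^k * MM N gi X t r k ∧
      Av N (fun g => gi g * (YY N X t r k g - MM N gi X t r k)^2) ≤ (ε * MM N gi X t r k)^2 := by
  intro k
  have hσ0 : 0 < σ := by linarith [P.hσ]
  induction k using Nat.strong_induction_on with
  | _ k ih =>
    -- one step of the constants
    have hstep : ∀ j < k, 0 < MM N gi X t r (j+1) ∧ MM N gi X t r j ≤ σ * MM N gi X t r (j+1) := by
      intro j hj
      obtain ⟨a1, -, -, -, a5⟩ := ih j hj
      have h1 : |Av N (fun g => gi g * (1 * (YY N X t r j g - MM N gi X t r j)))| ≤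
          ε * MM N gi X t r j := by
        refine (cs_gi H (fun _ => 1) _).trans ?_
        have h2 : √(Av N (fun g => gi g * (1:ℝ)^2)) ≤ 1 := by
          rw [Real.sqrt_le_one]
          simp only [one_pow, mul_one]
          exact H.p1
        have h3 : √(Av N (fun g => gi g * (YY N X t r j g - MM N gi X t r j)^2)) ≤
            ε * MM N gi X t r j := by
          rw [← Real.sqrt_sq (mul_nonneg P.hε0 a1.le)]
          exact Real.sqrt_le_sqrt a5
        calc _ ≤ 1 * (ε * MM N gi X t r j) := mul_le_mul h2 h3 (Real.sqrt_nonneg _) zero_le_one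
          _ = _ := one_mul _
      have h4 : Av N (fun g => gi g * (1 * (YY N X t r j g - MM N gi X t r j))) =
          Av N (fun g => gi g * YY N X t r j g) - Av N gi * MM N gi X t r j := by
        rw [← Av_mul_right, ← Av_sub]
        exact Av_congr fun g _ => by ring
      rw [h4, abs_le] at h1
      have h5 : (1 - ε) * MM N gi X t r j ≤ MM N gi X t r (j+1) := by
        rw [MM_succ]; linarith [h1.1]
      have hε1 : 0 < 1 - ε := by
        by_contra hc
        have := P.hε1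
        nlinarith
      refine ⟨lt_of_lt_of_le (mul_pos hε1 a1) h5, ?_⟩
      calc MM N gi X t r j = 1 * MM N gi X t r j := (one_mul _).symm
        _ ≤ (σ * (1 - ε)) * MM N gi X t r j := mul_le_mul_of_nonneg_right P.hε1 a1.le
        _ = σ * ((1 - ε) * MM N gi X t r j) := by ring
        _ ≤ _ := mul_le_mul_of_nonneg_left h5 hσ0.le
    have hpos : 0 < MM N gi X t r k := by
      cases k with
      | zero => exact zero_lt_one
      | succ k => exact (hstep k (by omega)).1
    have hle : ∀ d j, j + d = k → MM N gi X t r j ≤ σ^d * MM N gi X t r k := by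
      intro d
      induction d with
      | zero => intro j hj; rw [pow_zero, one_mul, show j = k by omega]
      | succ d ihd =>
        intro j hj
        have h1 := (hstep j (by omega)).2
        have h2 := ihd (j+1) (by omega)
        calc MM N gi X t r j ≤ σ * MM N gi X t r (j+1) := h1
          _ ≤ σ * (σ^d * MM N gi X t r k) := mul_le_mul_of_nonneg_left h2 hσ0.le
          _ = _ := by rw [pow_succ]; ring
    have hM : ∀ j < k, MM N gi X t r j ≤ σ^(k-j) * MM N gi X t r k :=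
      fun j hj => hle (k-j) j (by omega)
    have hY : ∀ j < k, √(Av N (fun g => gi g * YY N X t r j g ^ 2)) ≤
        2 * σ^(k-j) * MM N gi X t r k := by
      intro j hj
      obtain ⟨a1, -, -, -, a5⟩ := ih j hj
      have h1 : Av N (fun g => gi g * YY N X t r j g ^ 2) ≤ (2 * MM N gi X t r j)^2 := by
        calc Av N (fun g => gi g * YY N X t r j g ^ 2)
            ≤ Av N (fun g => 2 * (gi g * (YY N X t r j g - MM N gi X t r j)^2) +
              gi g * (2 * MM N gi X t r j ^ 2)) := by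
              refine Av_mono fun g _ => ?_
              have h2 : YY N X t r j g ^ 2 ≤ 2 * (YY N X t r j g - MM N gi X t r j)^2 +
                  2 * MM N gi X t r j ^ 2 := by
                nlinarith [sq_nonneg (YY N X t r j g - 2 * MM N gi X t r j)]
              have := mul_le_mul_of_nonneg_left h2 (H.gi0 g)
              linarith
          _ = 2 * Av N (fun g => gi g * (YY N X t r j g - MM N gi X t r j)^2) +
              Av N gi * (2 * MM N gi X t r j ^ 2) := by rw [Av_add, Av_mul, Av_mul_right]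
          _ ≤ 2 * (ε * MM N gi X t r j)^2 + 1 * (2 * MM N gi X t r j ^ 2) := by
              apply add_le_add (by linarith)
              exact mul_le_mul_of_nonneg_right H.p1 (by positivity)
          _ ≤ (2 * MM N gi X t r j)^2 := by
              have h3 : ε^2 ≤ 1 := by
                have h0 := P.hε0
                have h2 := P.hε2
                nlinarith
              nlinarith [mul_nonneg (sub_nonneg.2 h3) (sq_nonneg (MM N gi X t r j))]
      calc √(Av N (fun g => gi g * YY N X t r j g ^ 2)) ≤ √((2 * MM N gi X t r j)^2) :=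
            Real.sqrt_le_sqrt h1
        _ = 2 * MM N gi X t r j := Real.sqrt_sq (by positivity)
        _ ≤ 2 * (σ^(k-j) * MM N gi X t r k) := by
            apply mul_le_mul_of_nonneg_left (hM j hj) (by norm_num)
        _ = _ := by ring
    have h1 : 1 ≤ σ^k * MM N gi X t r k := by
      have := hle k 0 (by omega)
      exact this
    refine ⟨hpos, hM, hY, h1, ?_⟩
    have h2 : Av N (fun g => gi g * (YY N X t r k g - MM N gi X t r k)^2) ≤
        MM N gi X t r k ^ 2 * Av N (fun g => RR N gi X t r σ ρ k g ((fun _ => 0) g)) := by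
      rw [← Av_mul]
      refine Av_mono fun g _ => ?_
      have h3 := ptw_sq H t r k P.hσ P.hρ0 P.hσρ hpos hY h1 g 0
      rw [mul_zero, neg_zero, Real.exp_zero, one_mul] at h3
      calc gi g * (YY N X t r k g - MM N gi X t r k)^2
          ≤ 1 * (YY N X t r k g - MM N gi X t r k)^2 :=
            mul_le_mul_of_nonneg_right (H.gi1 g) (sq_nonneg _)
        _ ≤ _ := by rw [one_mul]; exact h3
    have h3 := RR_avg H P.hθ P.hB P.hσ P.hρ0 P.hσρ P.hρ P.ht hr k N 1 (by omega) (fun _ => 0)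
      (by simp only [abs_zero, mul_zero, Real.exp_zero]; rw [Av_const]; exact P.hB)
    calc _ ≤ _ := h2
      _ ≤ MM N gi X t r k ^ 2 * ε^2 :=
          mul_le_mul_of_nonneg_left (h3.trans P.hε) (sq_nonneg _)
      _ = _ := by ring

end Pool.Agent.Zk36.UW
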