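import Pool.Agent.Zk36.UW.Uni
import Pool.Agent.Zk36.UW.Dev

/-! The law of the winding angle and its weak limits. -/

set_option autoImplicit false

namespace Pool.Agent.Zk36.UW

open MeasureTheory Filter Topology H906K Pool.Agent.Zk36.CG
open scoped ENNReal BoundedContinuousFunction

/-- the law of the winding angle, as a measure: mass `2 ^ (-(2n+1) M)` at the winding angle of each
configuration -/
noncomputable def lawM (n M : ℕ) : Measure ℝ :=
  ∑ c : Fin M → Fin (2 * n + 1) → Bool,
    ENNReal.ofReal (1 / 2 ^ ((2 * n + 1) * M)) • Measure.dirac (Wd n M c)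

theorem card_conf (n M : ℕ) :
    (Fintype.card (Fin M → Fin (2 * n + 1) → Bool) : ℝ) = 2 ^ ((2 * n + 1) * M) := by
  simp [Fintype.card_fun, pow_mul]

instance lawM_prob (n M : ℕ) : IsProbabilityMeasure (lawM n M) := by
  constructor
  unfold lawM
  rw [Measure.finsetSum_apply]
  simp only [Measure.smul_apply, measure_univ, smul_eq_mul, mul_one, Finset.sum_const,
    Finset.card_univ, nsmul_eq_mul]
  rw [← ENNReal.ofReal_natCast, card_conf, ← ENNReal.ofReal_mul (by positivity),
    mul_one_div_cancel (by positivity), ENNReal.ofReal_one]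

/-- the law of the winding angle -/
noncomputable def lawW (n M : ℕ) : ProbabilityMeasure ℝ := ⟨lawM n M, lawM_prob n M⟩

theorem law_intble (n M : ℕ) (f : ℝ → ℝ) : Integrable f (lawM n M) := by
  unfold lawM
  refine integrable_finset_sum_measure.2 fun c _ => ?_
  exact (integrable_dirac (by simp [enorm])).smul_measure ENNReal.ofReal_ne_top

theorem law_integral (n M : ℕ) (f : ℝ → ℝ) :
    ∫ x, f x ∂(lawM n M) = Ex n M (fun c => f (Wd n M c)) := by
  unfold lawM Ex
  rw [integral_finset_sum_measure, Finset.sum_div]
  · refine Finset.sum_congr rfl fun c _ => ?_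
    rw [integral_smul_measure, integral_dirac, ENNReal.toReal_ofReal (by positivity), smul_eq_mul]
    ring
  · intro c _
    exact (integrable_dirac (by simp [enorm])).smul_measure ENNReal.ofReal_ne_top

theorem law_Ici (n M : ℕ) (b : ℝ) :
    (lawM n M).real (Set.Ici b) = Ex n M (fun c => if b ≤ Wd n M c then 1 else 0) := by
  rw [real_eq, law_integral]
  rfl

end Pool.Agent.Zk36.UW
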