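import Pool.Agent.Zk36.UW.Dec

/-! Functionals which are additive at the good blocks. -/

set_option autoImplicit false
set_option linter.unusedSectionVars false

namespace Pool.Agent.Zk36.UW

open Finset

variable {β : Type} [Fintype β] [Nonempty β]

/-- hypotheses: good blocks split the words; they are not rare; exponential moments -/
structure Hyp (N : ℕ) (gi X : List β → ℝ) (c θ B : ℝ) : Prop where
  gi01 : ∀ g, gi g = 0 ∨ gi g = 1
  split : ∀ u g v, g.length = N → gi g = 1 → X (u ++ (g ++ v)) = X (u ++ g) + X (g ++ v) - X g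
  pos : c ≤ Av N gi
  mom : ∀ L k, 1 ≤ k → L ≤ k * N → Av L (fun w => Real.exp (θ * |X w|)) ≤ B ^ k

/-- partition function after the word `c` -/
noncomputable def YY (N : ℕ) (X : List β → ℝ) (t : ℝ) (r k : ℕ) (c : List β) : ℝ :=
  Av (k*N+r) (fun w => Real.exp (t * X (c ++ w)))

/-- the kernel -/
noncomputable def ker (N : ℕ) (gi X : List β → ℝ) (t : ℝ) (s : ℕ) (c : List β) (z : ℝ)
    (g : List β) : ℝ :=
  Av (s*N) (fun d => bi N gi s d * Real.exp (t * (X (c ++ (d ++ g)) - X g - z)))

/-- the last term -/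
noncomputable def las (N : ℕ) (gi X : List β → ℝ) (t : ℝ) (r k : ℕ) (c : List β) (z : ℝ) : ℝ :=
  Av (k*N+r) (fun w => bi N gi k w * Real.exp (t * (X (c ++ w) - z)))

theorem renewal {N : ℕ} {gi X : List β → ℝ} {c0 θ B : ℝ} (H : Hyp N gi X c0 θ B) (t : ℝ)
    (r k : ℕ) (c : List β) (z : ℝ) :
    Real.exp (-(t * z)) * YY N X t r k c =
      ∑ s ∈ range k, Av N (fun g => gi g * (ker N gi X t s c z g * YY N X t r (k-1-s) g)) +
      las N gi X t r k c z := by
  have h0 : Real.exp (-(t * z)) * YY N X t r k c =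
      Av (k*N+r) (fun w => Real.exp (t * (X (c ++ w) - z))) := by
    unfold YY
    rw [← Av_mul]
    refine Av_congr fun w _ => ?_
    rw [← Real.exp_add]
    congr 1
    ring
  rw [h0, dec N gi r k]
  congr 1
  refine Finset.sum_congr rfl fun s _ => ?_
  have h1 : Av (s*N) (fun d => bi N gi s d * Av N (fun g => gi g *
      Av ((k-1-s)*N+r) (fun w => Real.exp (t * (X (c ++ (d ++ (g ++ w))) - z))))) =
      Av (s*N) (fun d => Av N (fun g => gi g * (bi N gi s d *
        Real.exp (t * (X (c ++ (d ++ g)) - X g - z)) * YY N X t r (k-1-s) g))) := by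
    refine Av_congr fun d _ => ?_
    rw [← Av_mul]
    refine Av_congr fun g hg => ?_
    rcases H.gi01 g with hg0 | hg1
    · rw [hg0]; ring
    · have h2 : Av ((k-1-s)*N+r) (fun w => Real.exp (t * (X (c ++ (d ++ (g ++ w))) - z))) =
          Real.exp (t * (X (c ++ (d ++ g)) - X g - z)) * YY N X t r (k-1-s) g := by
        unfold YY
        rw [← Av_mul]
        refine Av_congr fun w _ => ?_
        rw [← Real.exp_add]
        congr 1
        have h3 := H.split (c ++ d) g w hg hg1
        rw [List.append_assoc, List.append_assoc] at h3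
        rw [h3]; ring
      rw [h2]; ring
  rw [h1, Av_comm]
  refine Av_congr fun g _ => ?_
  rw [Av_mul]
  congr 1
  unfold ker
  rw [← Av_mul_right]

/-- squared distance of the kernel from the constant -/
noncomputable def qs (N : ℕ) (gi X : List β → ℝ) (t : ℝ) (s : ℕ) (c : List β) (z : ℝ) : ℝ :=
  Av N (fun g => gi g * (ker N gi X t s c z g - (1 - Av N gi)^s)^2)

noncomputable def bs (N : ℕ) (gi X : List β → ℝ) (t : ℝ) (r k : ℕ) (c : List β) (z : ℝ) : ℝ :=
  (las N gi X t r k c z - (1 - Av N gi)^k)^2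

theorem exp_sub_one_sq {t θ D x y z : ℝ} (hθ : 0 < θ) (ht : |t| ≤ θ / 12)
    (hD : |D| ≤ |x| + |y| + |z|) : (Real.exp (t * D) - 1)^2 ≤
      72 * (t/θ)^2 * (Real.exp (θ * |x|) + Real.exp (θ * |y|) + Real.exp (θ * |z|)) := by
  set η := θ / 6 with hη
  have hη0 : 0 < η := by positivity
  set S := |x| + |y| + |z| with hS
  have hS0 : 0 ≤ S := by positivity
  -- |exp a - 1| ≤ |a| exp |a|
  have h1 : |Real.exp (t * D) - 1| ≤ |t * D| * Real.exp |t * D| := by
    have a1 : ∀ a : ℝ, |Real.exp a - 1| ≤ |a| * Real.exp |a| := by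
      intro a
      rcases le_total 0 a with ha | ha
      · rw [abs_of_nonneg ha, abs_of_nonneg (by linarith [Real.add_one_le_exp a])]
        have := Real.add_one_le_exp (-a)
        rw [Real.exp_neg] at this
        have h2 := Real.exp_pos a
        have h3 : (1 - a) * Real.exp a ≤ 1 := by
          calc (1 - a) * Real.exp a ≤ (Real.exp a)⁻¹ * Real.exp a :=
                mul_le_mul_of_nonneg_right (by linarith) h2.le
            _ = 1 := inv_mul_cancel₀ h2.ne'
        nlinarith
      · have h2 := Real.add_one_le_exp a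
        have h3 : Real.exp a ≤ 1 := Real.exp_le_one_iff.2 ha
        rw [abs_of_nonpos (by linarith), abs_of_nonpos ha]
        have h4 : 1 ≤ Real.exp (-a) := Real.one_le_exp (by linarith)
        nlinarith
    exact a1 _
  have h2 : |t * D| ≤ |t| * S := by rw [abs_mul]; exact mul_le_mul_of_nonneg_left hD (abs_nonneg _)
  have h3 : |Real.exp (t * D) - 1| ≤ |t| * S * Real.exp (|t| * S) :=
    h1.trans (mul_le_mul h2 (Real.exp_le_exp.2 h2) (Real.exp_pos _).le (by positivity))
  have h4 : (Real.exp (t * D) - 1)^2 ≤ (|t| * S * Real.exp (|t| * S))^2 := by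
    rw [← sq_abs (Real.exp (t * D) - 1)]
    exact pow_le_pow_left₀ (abs_nonneg _) h3 2
  have h5 : (|t| * S * Real.exp (|t| * S))^2 = t^2 * S^2 * Real.exp (2 * |t| * S) := by
    rw [mul_pow, mul_pow, sq_abs, ← Real.exp_nat_mul]
    congr 2
    push_cast; ring
  have h6 : S^2 ≤ 2/η^2 * Real.exp (η * S) := by
    have := Real.quadratic_le_exp_of_nonneg (mul_nonneg hη0.le hS0)
    have h7 : (η * S)^2 / 2 ≤ Real.exp (η * S) := by nlinarith [mul_nonneg hη0.le hS0]
    rw [div_mul_eq_mul_div, le_div_iff₀ (by positivity)]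
    nlinarith
  have h7 : Real.exp (2 * |t| * S) ≤ Real.exp (η * S) := by
    apply Real.exp_le_exp.2
    apply mul_le_mul_of_nonneg_right _ hS0
    rw [hη]; linarith
  have h8 : Real.exp (η * S) * Real.exp (η * S) ≤
      Real.exp (θ * |x|) + Real.exp (θ * |y|) + Real.exp (θ * |z|) := by
    rw [← Real.exp_add]
    have m1 : S ≤ 3 * max (max |x| |y|) |z| := by
      have a1 := le_max_left |x| |y|
      have a2 := le_max_right |x| |y|
      have a3 := le_max_left (max |x| |y|) |z|
      have a4 := le_max_right (max |x| |y|) |z|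
      rw [hS]; linarith
    have m2 : η * S + η * S ≤ θ * max (max |x| |y|) |z| := by
      rw [hη]; nlinarith
    refine (Real.exp_le_exp.2 m2).trans ?_
    have p1 := Real.exp_pos (θ * |x|)
    have p2 := Real.exp_pos (θ * |y|)
    have p3 := Real.exp_pos (θ * |z|)
    rcases max_choice (max |x| |y|) |z| with h | h
    · rw [h]
      rcases max_choice |x| |y| with h' | h' <;> rw [h'] <;> linarith
    · rw [h]; linarith
  calc (Real.exp (t * D) - 1)^2 ≤ t^2 * S^2 * Real.exp (2 * |t| * S) := h4.trans h5.le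
    _ ≤ t^2 * (2/η^2 * Real.exp (η * S)) * Real.exp (η * S) := by
        apply mul_le_mul _ h7 (Real.exp_pos _).le (by positivity)
        exact mul_le_mul_of_nonneg_left h6 (sq_nonneg _)
    _ = (2 * t^2/η^2) * (Real.exp (η * S) * Real.exp (η * S)) := by ring
    _ ≤ (2 * t^2/η^2) * (Real.exp (θ * |x|) + Real.exp (θ * |y|) + Real.exp (θ * |z|)) :=
        mul_le_mul_of_nonneg_left h8 (by positivity)
    _ = _ := by rw [hη]; field_simp; ring

end Pool.Agent.Zk36.UW
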